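import Pool.Agent.H593R3.FBC.Theory

/-!
# The canonical model
-/

namespace Pool.Agent.H593R3.FBC

open Function

/-- The canonical structure extending `B`. -/
def canon (m : Mach) {A : Type} (B : Mdl A) (ξ : A → ℕ → Bool) : Mdl A where
  F := B.F
  L := B.L
  S := B.S
  P := B.P
  N := B.N
  U f x := ¬ (B.F f ∧ ∃ i, Dp B.S f i x)
  X f x := ∀ i, B.F f → Dp B.S f i x → ξ f i = true
  Z f x y := ∀ i j, B.F f → Dp B.S f i x → Dp B.S f j y → i = j
  W f x y := ∀ i j, B.F f → Dp B.S f i x → Dp B.S f j y → i < j
  Q q f x := q < m.nQ ∧ ∀ i, B.F f → Dp B.S f i x → q = m.lab i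
  H k f x u := k < m.nK ∧ ∀ i j, B.F f → Dp B.S f i x → Dp B.S f j u → j = m.cnt i k

theorem model_of_good {m : Mach} (hm : m.OK) {A : Type} {B : Mdl A} (hn : B.Nice m)
    (hg : ∀ f, B.F f → GoodAt m B f) : ∃ M : Mdl A, IsModel m M ∧ Sub B M ∧ M.Nice m := by
  classical
  choose ξ hξ1 hξ2 using fun (f : {f // B.F f}) => (hg f.1 f.2).x
  set η : A → ℕ → Bool := fun f i => if hf : B.F f then ξ ⟨f, hf⟩ i else false with hη
  have hη1 : ∀ f (hf : B.F f) i x, Dp B.S f i x → B.X f x → η f i = true := by
    intro f hf i x h1 h2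
    simp only [hη, dif_pos hf]
    exact hξ1 ⟨f, hf⟩ i x h1 h2
  have hη2 : ∀ f (hf : B.F f) n z, Dp B.S f n z → B.L z → m.flag n = true →
      (∀ a b c x y w, Dp B.S f a x → Dp B.S f b y → Dp B.S f c w → a < n → b < n → c < n →
        B.P x y w → η f a = true ∨ η f b = true ∨ η f c = true) ∧
      ∀ a b x y, Dp B.S f a x → Dp B.S f b y → a < n → b < n → B.N x y →
        ¬ (η f a = true ∧ η f b = true) := by
    intro f hf n z h1 h2 h3
    simp only [hη, dif_pos hf]
    exact hξ2 ⟨f, hf⟩ n z h1 h2 h3
  clear_value η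
  have vv : ∀ {f x}, (canon m B η).V f x → B.F f ∧ ∃ i, Dp B.S f i x := by
    intro f x h
    exact not_not.1 h.2
  have un : ∀ {f i j x}, B.F f → Dp B.S f i x → Dp B.S f j x → i = j :=
    fun hf h1 h2 => (hg _ hf).uniq _ _ _ h1 h2
  refine ⟨canon m B η, ?_, ?_, fun q a b h => h.1, fun k a b c h => h.1⟩
  · constructor
    case uf => exact fun f hf h => h ⟨hf, 0, rfl⟩
    case us =>
      intro f x y hx hs h
      obtain ⟨hf, i, hi⟩ := vv hx
      exact h ⟨hf, i + 1, x, hi, hs⟩
    case z0 =>
      intro f hf i j _ h1 h2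
      exact un hf h1 h2
    case zs =>
      intro f x y x' y' hx hy hz h1 h2 i j _ hi hj
      obtain ⟨hf, a, ha⟩ := vv hx
      obtain ⟨_, b, hb⟩ := vv hy
      have e1 := un hf hi (Dp.succ ha h1)
      have e2 := un hf hj (Dp.succ hb h2)
      have e3 := hz a b hf ha hb
      omega
    case zw =>
      intro f x x' y hx hy hz h1 i j _ hi hj
      obtain ⟨hf, a, ha⟩ := vv hx
      obtain ⟨_, b, hb⟩ := vv hy
      have e1 := un hf hi ha
      have e2 := un hf hj (Dp.succ hb h1)
      have e3 := hz a b hf ha hb
      omega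
    case ws =>
      intro f x y y' hx hy hz h1 i j _ hi hj
      obtain ⟨hf, a, ha⟩ := vv hx
      obtain ⟨_, b, hb⟩ := vv hy
      have e1 := un hf hi ha
      have e2 := un hf hj (Dp.succ hb h1)
      have e3 := hz a b hf ha hb
      omega
    case c1 =>
      intro f x y hx hy hz hw
      obtain ⟨hf, a, ha⟩ := vv hx
      obtain ⟨_, b, hb⟩ := vv hy
      have e1 := hz a b hf ha hb
      have e2 := hw a b hf ha hb
      omega
    case c2 =>
      intro f x y hx hy hz hw
      obtain ⟨hf, a, ha⟩ := vv hx
      obtain ⟨_, b, hb⟩ := vv hy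
      have e1 := hz a b hf ha hb
      have e2 := hw b a hf hb ha
      omega
    case c3 =>
      intro f x y hx hy hz hw
      obtain ⟨hf, a, ha⟩ := vv hx
      obtain ⟨_, b, hb⟩ := vv hy
      have e1 := hz a b hf ha hb
      have e2 := hw b a hf hb ha
      omega
    case q0 =>
      intro f hf
      refine ⟨hm.hQ, fun i _ hi => ?_⟩
      have e1 : i = 0 := un hf hi rfl
      subst e1
      rfl
    case h0 =>
      intro f k hk hf
      refine ⟨hk, fun i j _ hi hj => ?_⟩
      have e1 : i = 0 := un hf hi rfl
      have e2 : j = 0 := un hf hj rfl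
      subst e1
      subst e2
      rfl
    case qq =>
      intro f x q q' hx h1 h2
      obtain ⟨hf, a, ha⟩ := vv hx
      rw [h1.2 a hf ha, h2.2 a hf ha]
    case hh =>
      intro f x u u' k hx hu hu' h1 h2 hw
      obtain ⟨hf, a, ha⟩ := vv hx
      obtain ⟨_, b, hb⟩ := vv hu
      obtain ⟨_, c, hc⟩ := vv hu'
      have e1 := h1.2 a b hf ha hb
      have e2 := h2.2 a c hf ha hc
      have e3 := hw b c hf hb hc
      omega
    case hz =>
      intro f x u u' k hx hu hu' h1 h2
      obtain ⟨hf, a, ha⟩ := vv hx
      obtain ⟨_, b, hb⟩ := vv hu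
      refine ⟨h1.1, fun i j _ hi hj => ?_⟩
      have e1 := h1.2 i b hf hi hb
      have e2 := h2 b j hf hb hj
      omega
    case inc1 =>
      intro f x y q k q' hi hx hq hs
      obtain ⟨hf, a, ha⟩ := vv hx
      have hok := hm.ins _ hq.1
      rw [hi] at hok
      refine ⟨hok.2, fun i _ hy => ?_⟩
      have e1 := un hf hy (Dp.succ ha hs)
      have e2 := hq.2 a hf ha
      subst e1
      subst e2
      unfold Mach.lab at hi ⊢
      simp only [Mach.run, Mach.step, hi]
    case inc2 =>
      intro f x y u v q k q' hi hx hu hq hs hh hs'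
      obtain ⟨hf, a, ha⟩ := vv hx
      obtain ⟨_, b, hb⟩ := vv hu
      refine ⟨hh.1, fun i j _ hy hv => ?_⟩
      have e1 := un hf hy (Dp.succ ha hs)
      have e2 := hq.2 a hf ha
      have e3 := un hf hv (Dp.succ hb hs')
      have e4 := hh.2 a b hf ha hb
      subst e1
      subst e2
      unfold Mach.lab at hi
      unfold Mach.cnt at e4 ⊢
      simp only [Mach.run, Mach.step, hi, update_self]
      omega
    case inc3 =>
      intro f x y u q k q' k' hi hk hx hu hq hs hh
      obtain ⟨hf, a, ha⟩ := vv hx
      refine ⟨hh.1, fun i j _ hy hv => ?_⟩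
      have e1 := un hf hy (Dp.succ ha hs)
      have e2 := hq.2 a hf ha
      have e4 := hh.2 a j hf ha hv
      subst e1
      subst e2
      unfold Mach.lab at hi
      unfold Mach.cnt at e4 ⊢
      simp only [Mach.run, Mach.step, hi, update_of_ne hk]
      omega
    case dec1 =>
      intro f x y q k q' q'' hi hx hq hs hh
      obtain ⟨hf, a, ha⟩ := vv hx
      have hok := hm.ins _ hq.1
      rw [hi] at hok
      have e2 := hq.2 a hf ha
      have e4 := hh.2 a 0 hf ha rfl
      subst e2
      unfold Mach.lab at hi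
      unfold Mach.cnt at e4
      refine ⟨⟨hok.2.2, fun i _ hy => ?_⟩, ⟨hok.1, fun i j _ hy hv => ?_⟩⟩
      · have e1 := un hf hy (Dp.succ ha hs)
        subst e1
        unfold Mach.lab
        simp only [Mach.run, Mach.step, hi, if_pos e4.symm]
      · have e1 := un hf hy (Dp.succ ha hs)
        have e3 : j = 0 := un hf hv rfl
        subst e1
        unfold Mach.cnt
        simp only [Mach.run, Mach.step, hi, if_pos e4.symm]
        omega
    case dec2 =>
      intro f x y u v q k q' q'' hi hx hu hv hq hs hh hs'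
      obtain ⟨hf, a, ha⟩ := vv hx
      obtain ⟨_, b, hb⟩ := vv hu
      obtain ⟨_, c, hc⟩ := vv hv
      have hok := hm.ins _ hq.1
      rw [hi] at hok
      have e2 := hq.2 a hf ha
      have e4 := hh.2 a b hf ha hb
      have e5 := un hf hb (Dp.succ hc hs')
      subst e2
      unfold Mach.lab at hi
      unfold Mach.cnt at e4
      have hne : (m.run a).2 k ≠ 0 := by omega
      refine ⟨⟨hok.2.1, fun i _ hy => ?_⟩, ⟨hok.1, fun i j _ hy hv => ?_⟩⟩
      · have e1 := un hf hy (Dp.succ ha hs)
        subst e1
        unfold Mach.lab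
        simp only [Mach.run, Mach.step, hi, if_neg hne]
      · have e1 := un hf hy (Dp.succ ha hs)
        have e3 := un hf hv hc
        subst e1
        unfold Mach.cnt
        simp only [Mach.run, Mach.step, hi, if_neg hne, update_self]
        omega
    case dec3 =>
      intro f x y u q k q' q'' k' hi hk hx hu hq hs hh
      obtain ⟨hf, a, ha⟩ := vv hx
      refine ⟨hh.1, fun i j _ hy hv => ?_⟩
      have e1 := un hf hy (Dp.succ ha hs)
      have e2 := hq.2 a hf ha
      have e4 := hh.2 a j hf ha hv
      subst e1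
      subst e2
      unfold Mach.lab at hi
      unfold Mach.cnt at e4 ⊢
      simp only [Mach.run, Mach.step, hi]
      split_ifs
      · exact e4
      · simp only [update_of_ne hk]
        exact e4
    case jmp1 =>
      intro f x y q q' hi hx hq hs
      obtain ⟨hf, a, ha⟩ := vv hx
      have hok := hm.ins _ hq.1
      rw [hi] at hok
      refine ⟨hok, fun i _ hy => ?_⟩
      have e1 := un hf hy (Dp.succ ha hs)
      have e2 := hq.2 a hf ha
      subst e1
      subst e2
      unfold Mach.lab at hi ⊢
      simp only [Mach.run, Mach.step, hi]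
    case jmp2 =>
      intro f x y u q q' k hi hx hu hq hs hh
      obtain ⟨hf, a, ha⟩ := vv hx
      refine ⟨hh.1, fun i j _ hy hv => ?_⟩
      have e1 := un hf hy (Dp.succ ha hs)
      have e2 := hq.2 a hf ha
      have e4 := hh.2 a j hf ha hv
      subst e1
      subst e2
      unfold Mach.lab at hi
      unfold Mach.cnt at e4 ⊢
      simp only [Mach.run, Mach.step, hi]
      exact e4
    case rst1 =>
      intro f x y q q' hi hx hq hs
      obtain ⟨hf, a, ha⟩ := vv hx
      have hok := hm.ins _ hq.1
      rw [hi] at hok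
      refine ⟨hok, fun i _ hy => ?_⟩
      have e1 := un hf hy (Dp.succ ha hs)
      have e2 := hq.2 a hf ha
      subst e1
      subst e2
      unfold Mach.lab at hi ⊢
      simp only [Mach.run, Mach.step, hi]
    case rst2 =>
      intro f x y q q' hi hx hq hs
      obtain ⟨hf, a, ha⟩ := vv hx
      refine ⟨hm.hK, fun i j _ hy hj => ?_⟩
      have e1 := un hf hy (Dp.succ ha hs)
      have e2 := hq.2 a hf ha
      have e3 := un hf hj ha
      subst e1
      subst e2
      unfold Mach.lab at hi
      unfold Mach.cnt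
      simp only [Mach.run, Mach.step, hi]
      simpa using e3
    case rst3 =>
      intro f x y q q' k hk hi hk0 hx hq hs
      obtain ⟨hf, a, ha⟩ := vv hx
      refine ⟨hk, fun i j _ hy hj => ?_⟩
      have e1 := un hf hy (Dp.succ ha hs)
      have e2 := hq.2 a hf ha
      have e3 : j = 0 := un hf hj rfl
      subst e1
      subst e2
      unfold Mach.lab at hi
      unfold Mach.cnt
      simp only [Mach.run, Mach.step, hi, if_neg hk0]
      exact e3
    case xz =>
      intro f x y hx hy hz h i _ hi
      obtain ⟨hf, a, ha⟩ := vv hx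
      have e1 := hz a i hf ha hi
      rw [← e1]
      exact h a hf ha
    case pp =>
      intro f z x y w q hz hL hq hQ hx hy hw w1 w2 w3 hP
      obtain ⟨hf, n, hn'⟩ := vv hz
      obtain ⟨_, a, ha⟩ := vv hx
      obtain ⟨_, b, hb⟩ := vv hy
      obtain ⟨_, c, hc⟩ := vv hw
      have e1 := w1 a n hf ha hn'
      have e2 := w2 b n hf hb hn'
      have e3 := w3 c n hf hc hn'
      have hfl : m.flag n = true := by
        unfold Mach.flag
        rw [← hQ.2 n hf hn']
        exact hq
      rcases (hη2 f hf n z hn' hL hfl).1 a b c x y w ha hb hc e1 e2 e3 hP with h | h | h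
      · left
        intro i _ hi
        rw [un hf hi ha]; exact h
      · right; left
        intro i _ hi
        rw [un hf hi hb]; exact h
      · right; right
        intro i _ hi
        rw [un hf hi hc]; exact h
    case nn =>
      rintro f z x y q hz hL hq hQ hx hy w1 w2 hN ⟨h1, h2⟩
      obtain ⟨hf, n, hn'⟩ := vv hz
      obtain ⟨_, a, ha⟩ := vv hx
      obtain ⟨_, b, hb⟩ := vv hy
      have e1 := w1 a n hf ha hn'
      have e2 := w2 b n hf hb hn'
      have hfl : m.flag n = true := by
        unfold Mach.flag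
        rw [← hQ.2 n hf hn']
        exact hq
      exact (hη2 f hf n z hn' hL hfl).2 a b x y ha hb e1 e2 hN ⟨h1 a hf ha, h2 b hf hb⟩
  · constructor
    case F => exact fun a h => h
    case L => exact fun a h => h
    case S => exact fun a b h => h
    case P => exact fun a b c h => h
    case N => exact fun a b h => h
    case U =>
      rintro f x h ⟨hf, i, hi⟩
      exact (hg f hf).u i x hi h
    case X => exact fun f x h i hf hi => hη1 f hf i x hi h
    case Z => exact fun f x y h i j hf hi hj => (hg f hf).z i j x y hi hj h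
    case W => exact fun f x y h i j hf hi hj => (hg f hf).w i j x y hi hj h
    case Q => exact fun q f x h => ⟨hn.1 _ _ _ h, fun i hf hi => (hg f hf).q i x q hi h⟩
    case H => exact fun k f x u h => ⟨hn.2 _ _ _ _ h,
        fun i j hf hi hj => (hg f hf).h i j x u k hi hj h⟩

end Pool.Agent.H593R3.FBC
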