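import Pool.Agent.NPC.Dec

/-!
# Constraint satisfaction problems of infinite structures, and finite boundedness

A finite relational signature is given by the list `τ` of the arities of its relation symbols;
the symbols are the numbers `i < τ.length`. A structure with domain `A` is given by the relations
`r i : List A → Prop`; only the values of `r i` at the lists of length `τ[i]`, for `i < τ.length`,
matter (the other ones are never used in the definitions below).
-/

namespace Pool.Agent.H593R3.FBC

open Pool.Agent.NPC

/-- The relations of a structure with domain `A`: `r i l` says that the relation number `i` holds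
at the tuple `l`. -/
abbrev Rels (A : Type) : Type := ℕ → List A → Prop

/-- The structure `r` with domain `A` embeds into the structure `r'` with domain `B`. -/
def Embeds (τ : List ℕ) {A B : Type} (r : Rels A) (r' : Rels B) : Prop :=
  ∃ e : A → B, Function.Injective e ∧
    ∀ (i : ℕ) (l : List A), τ[i]? = some l.length → (r i l ↔ r' i (l.map e))

/-- The structure `r` is finitely bounded: there is a finite family `F` of finite structures such
that a finite structure `B` embeds into `r` if and only if no member of `F` embeds into `B`. -/
def FinitelyBounded (τ : List ℕ) {A : Type} (r : Rels A) : Prop :=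
  ∃ (ι : Type) (_ : Finite ι) (n : ι → ℕ) (F : ∀ i : ι, Rels (Fin (n i))),
    ∀ (k : ℕ) (B : Rels (Fin k)), Embeds τ B r ↔ ∀ i, ¬ Embeds τ (F i) B

/-- Instances of constraint satisfaction problems, that is finite structures. The domain is
`{0, ..., n - 1}`, where `n` (given in unary) is the length of the first component, and the second
component is the list of all `(i, l)` such that the relation number `i` holds at the tuple `l`. -/
abbrev Inst : Type := List Unit × List (ℕ × List ℕ)

/-- The instance is a structure with signature `τ`. -/
def IsInst (τ : List ℕ) (I : Inst) : Prop :=
  ∀ p ∈ I.2, τ[p.1]? = some p.2.length ∧ ∀ a ∈ p.2, a < I.1.length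

/-- The constraint satisfaction problem of the structure `r`: is there a homomorphism from the
given finite structure to `r`? -/
def CSP (τ : List ℕ) {A : Type} (r : Rels A) (I : Inst) : Prop :=
  IsInst τ I ∧ ∃ h : Fin I.1.length → A, ∀ (i : ℕ) (l : List (Fin I.1.length)),
    (i, l.map Fin.val) ∈ I.2 → r i (l.map h)

/-- The decision problem is `NP`-intermediate: it is in `NP`, but neither in `P` nor
`NP`-complete with respect to polynomial-time many-one reductions. -/
def NPIntermediate {α : Type} [TEnc α] (P : α → Prop) : Prop :=
  InNPP P ∧ ¬ InPP P ∧ ¬ NPHardP P

end Pool.Agent.H593R3.FBC
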