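import Pool.Agent.H593R3.FBC.Canon

/-!
# The finitely bounded structure attached to a machine
-/

namespace Pool.Agent.H593R3.FBC

open Function

/-- The signature. -/
def tau (m : Mach) : List ℕ :=
  [1, 1, 2, 3, 2, 2, 2, 3, 3] ++ (List.replicate m.nQ 2 ++ List.replicate m.nK 3)

/-- Naming the relations. -/
def toMdl (m : Mach) {A : Type} (r : Rels A) : Mdl A where
  F a := r 0 [a]
  L a := r 1 [a]
  S a b := r 2 [a, b]
  P a b c := r 3 [a, b, c]
  N a b := r 4 [a, b]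
  U a b := r 5 [a, b]
  X a b := r 6 [a, b]
  Z a b c := r 7 [a, b, c]
  W a b c := r 8 [a, b, c]
  Q q a b := q < m.nQ ∧ r (9 + q) [a, b]
  H k a b c := k < m.nK ∧ r (9 + m.nQ + k) [a, b, c]

/-- Numbering the relations. -/
def ofMdl (m : Mach) {A : Type} (M : Mdl A) : Rels A
  | i, [a] => (i = 0 ∧ M.F a) ∨ (i = 1 ∧ M.L a)
  | i, [a, b] => (i = 2 ∧ M.S a b) ∨ (i = 4 ∧ M.N a b) ∨ (i = 5 ∧ M.U a b) ∨
      (i = 6 ∧ M.X a b) ∨ ∃ q, i = 9 + q ∧ M.Q q a b
  | i, [a, b, c] => (i = 3 ∧ M.P a b c) ∨ (i = 7 ∧ M.Z a b c) ∨ (i = 8 ∧ M.W a b c) ∨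
      ∃ k, i = 9 + m.nQ + k ∧ M.H k a b c
  | _, _ => False

theorem toMdl_ofMdl {m : Mach} {A : Type} {M : Mdl A} (hn : M.Nice m) :
    toMdl m (ofMdl m M) = M := by
  ext
  · simp [toMdl, ofMdl]
  · simp [toMdl, ofMdl]
  · simp [toMdl, ofMdl]
    intro q h; omega
  · simp [toMdl, ofMdl]
    intro q h; omega
  · simp [toMdl, ofMdl]
    intro q h; omega
  · simp [toMdl, ofMdl]
    intro q h; omega
  · simp [toMdl, ofMdl]
    intro q h; omega
  · simp [toMdl, ofMdl]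
    intro q h; omega
  · simp [toMdl, ofMdl]
    intro q h; omega
  · rename_i q a b
    simp only [toMdl, ofMdl]
    constructor
    · rintro ⟨_, h | h | h | h | ⟨q', h, h'⟩⟩
      · omega
      · omega
      · omega
      · omega
      · obtain rfl : q = q' := by omega
        exact h'
    · intro h
      exact ⟨hn.1 _ _ _ h, Or.inr (Or.inr (Or.inr (Or.inr ⟨q, rfl, h⟩)))⟩
  · rename_i k a b c
    simp only [toMdl, ofMdl]
    constructor
    · rintro ⟨_, h | h | h | ⟨q', h, h'⟩⟩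
      · omega
      · omega
      · omega
      · obtain rfl : k = q' := by omega
        exact h'
    · intro h
      exact ⟨hn.2 _ _ _ _ h, Or.inr (Or.inr (Or.inr ⟨k, rfl, h⟩))⟩

theorem tau_q (m : Mach) {q : ℕ} (hq : q < m.nQ) : (tau m)[9 + q]? = some 2 := by
  unfold tau
  rw [List.getElem?_append_right (by simp)]
  rw [List.getElem?_append_left (by simpa using hq), List.getElem?_replicate]
  simp
  omega

theorem tau_k (m : Mach) {k : ℕ} (hk : k < m.nK) : (tau m)[9 + m.nQ + k]? = some 3 := by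
  unfold tau
  rw [List.getElem?_append_right (by simp; omega)]
  rw [List.getElem?_append_right (by simp; omega)]
  rw [List.getElem?_replicate]
  simp
  omega

theorem tau_cases {m : Mach} {i n : ℕ} (h : (tau m)[i]? = some n) :
    (i = 0 ∧ n = 1) ∨ (i = 1 ∧ n = 1) ∨ (i = 2 ∧ n = 2) ∨ (i = 3 ∧ n = 3) ∨ (i = 4 ∧ n = 2) ∨
    (i = 5 ∧ n = 2) ∨ (i = 6 ∧ n = 2) ∨ (i = 7 ∧ n = 3) ∨ (i = 8 ∧ n = 3) ∨
    (∃ q < m.nQ, i = 9 + q ∧ n = 2) ∨ ∃ k < m.nK, i = 9 + m.nQ + k ∧ n = 3 := by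
  by_cases h9 : i < 9
  · unfold tau at h
    rw [List.getElem?_append_left (by simpa using h9)] at h
    interval_cases i <;> simp at h <;> subst h <;> simp
  · obtain ⟨q, rfl⟩ : ∃ q, i = 9 + q := ⟨i - 9, by omega⟩
    by_cases hq : q < m.nQ
    · rw [tau_q m hq] at h
      simp only [Option.some.injEq] at h
      exact Or.inr (Or.inr (Or.inr (Or.inr (Or.inr (Or.inr (Or.inr (Or.inr (Or.inr (Or.inl
        ⟨q, hq, rfl, h.symm⟩)))))))))
    · obtain ⟨k, rfl⟩ : ∃ k, q = m.nQ + k := ⟨q - m.nQ, by omega⟩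
      by_cases hk : k < m.nK
      · rw [← add_assoc, tau_k m hk] at h
        simp only [Option.some.injEq] at h
        exact Or.inr (Or.inr (Or.inr (Or.inr (Or.inr (Or.inr (Or.inr (Or.inr (Or.inr (Or.inr
          ⟨k, hk, by omega, h.symm⟩)))))))))
      · exfalso
        rw [List.getElem?_eq_none] at h
        · simp at h
        · unfold tau
          simp
          omega

theorem tau_bd {m : Mach} {i n : ℕ} (h : (tau m)[i]? = some n) : 1 ≤ n ∧ n ≤ 3 := by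
  rcases tau_cases h with h | h | h | h | h | h | h | h | h | ⟨_, _, h⟩ | ⟨_, _, h⟩ <;> omega

theorem toMdl_congr {m : Mach} {A : Type} {r r' : Rels A}
    (h : ∀ i l, (tau m)[i]? = some l.length → (r i l ↔ r' i l)) : toMdl m r = toMdl m r' := by
  ext
  · exact h 0 _ rfl
  · exact h 1 _ rfl
  · exact h 2 _ rfl
  · exact h 3 _ rfl
  · exact h 4 _ rfl
  · exact h 5 _ rfl
  · exact h 6 _ rfl
  · exact h 7 _ rfl
  · exact h 8 _ rfl
  · exact and_congr_right fun hq => h _ _ (tau_q m hq)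
  · exact and_congr_right fun hk => h _ _ (tau_k m hk)

theorem toMdl_nice (m : Mach) {A : Type} (r : Rels A) : (toMdl m r).Nice m :=
  ⟨fun _ _ _ h => h.1, fun _ _ _ _ h => h.1⟩

theorem toMdl_sub {m : Mach} {A : Type} {r r' : Rels A} (h : ∀ i l, r i l → r' i l) :
    Sub (toMdl m r) (toMdl m r') := by
  constructor
  · exact fun _ => h _ _
  · exact fun _ => h _ _
  · exact fun _ _ => h _ _
  · exact fun _ _ _ => h _ _
  · exact fun _ _ => h _ _
  · exact fun _ _ => h _ _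
  · exact fun _ _ => h _ _
  · exact fun _ _ _ => h _ _
  · exact fun _ _ _ => h _ _
  · exact fun _ _ _ hh => ⟨hh.1, h _ _ hh.2⟩
  · exact fun _ _ _ _ hh => ⟨hh.1, h _ _ hh.2⟩

theorem ofMdl_of_sub {m : Mach} {A : Type} {r : Rels A} {M : Mdl A} (h : Sub (toMdl m r) M)
    {i : ℕ} {l : List A} (hi : (tau m)[i]? = some l.length) (hr : r i l) : ofMdl m M i l := by
  match l, hi, hr with
  | [], hi, hr => have := (tau_bd hi).1; simp at this
  | [a], hi, hr =>
    rcases tau_cases hi with h' | h' | h' | h' | h' | h' | h' | h' | h' | ⟨q, hq, h'⟩ |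
      ⟨k, hk, h'⟩ <;> simp at h' <;> subst h'
    · exact Or.inl ⟨rfl, h.F _ hr⟩
    · exact Or.inr ⟨rfl, h.L _ hr⟩
  | [a, b], hi, hr =>
    rcases tau_cases hi with h' | h' | h' | h' | h' | h' | h' | h' | h' | ⟨q, hq, h'⟩ |
      ⟨k, hk, h'⟩ <;> simp at h' <;> subst h'
    · exact Or.inl ⟨rfl, h.S _ _ hr⟩
    · exact Or.inr (Or.inl ⟨rfl, h.N _ _ hr⟩)
    · exact Or.inr (Or.inr (Or.inl ⟨rfl, h.U _ _ hr⟩))
    · exact Or.inr (Or.inr (Or.inr (Or.inl ⟨rfl, h.X _ _ hr⟩)))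
    · exact Or.inr (Or.inr (Or.inr (Or.inr ⟨q, rfl, h.Q _ _ _ ⟨hq, hr⟩⟩)))
  | [a, b, c], hi, hr =>
    rcases tau_cases hi with h' | h' | h' | h' | h' | h' | h' | h' | h' | ⟨q, hq, h'⟩ |
      ⟨k, hk, h'⟩ <;> simp at h' <;> subst h'
    · exact Or.inl ⟨rfl, h.P _ _ _ hr⟩
    · exact Or.inr (Or.inl ⟨rfl, h.Z _ _ _ hr⟩)
    · exact Or.inr (Or.inr (Or.inl ⟨rfl, h.W _ _ _ hr⟩))
    · exact Or.inr (Or.inr (Or.inr ⟨k, rfl, h.H _ _ _ _ ⟨hk, hr⟩⟩))
  | a :: b :: c :: d :: l, hi, hr =>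
    have := (tau_bd hi).2
    simp at this
    omega

/-- Inverse images. -/
def Mdl.pull {A B : Type} (v : A → B) (M : Mdl B) : Mdl A where
  F a := M.F (v a)
  L a := M.L (v a)
  S a b := M.S (v a) (v b)
  P a b c := M.P (v a) (v b) (v c)
  N a b := M.N (v a) (v b)
  U a b := M.U (v a) (v b)
  X a b := M.X (v a) (v b)
  Z a b c := M.Z (v a) (v b) (v c)
  W a b c := M.W (v a) (v b) (v c)
  Q q a b := M.Q q (v a) (v b)
  H k a b c := M.H k (v a) (v b) (v c)

theorem IsModel.pull {m : Mach} {A B : Type} {M : Mdl B} (h : IsModel m M) (v : A → B) :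
    IsModel m (M.pull v) where
  uf _ := h.uf _
  us _ _ _ := h.us _ _ _
  z0 _ := h.z0 _
  zs _ _ _ _ _ := h.zs _ _ _ _ _
  zw _ _ _ _ := h.zw _ _ _ _
  ws _ _ _ _ := h.ws _ _ _ _
  c1 _ _ _ := h.c1 _ _ _
  c2 _ _ _ := h.c2 _ _ _
  c3 _ _ _ := h.c3 _ _ _
  q0 _ := h.q0 _
  h0 _ := h.h0 _
  qq _ _ _ _ := h.qq _ _ _ _
  hh _ _ _ _ _ := h.hh _ _ _ _ _
  hz _ _ _ _ _ := h.hz _ _ _ _ _
  inc1 _ _ _ _ _ _ := h.inc1 _ _ _ _ _ _
  inc2 _ _ _ _ _ _ _ _ := h.inc2 _ _ _ _ _ _ _ _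
  inc3 _ _ _ _ _ _ _ _ := h.inc3 _ _ _ _ _ _ _ _
  dec1 _ _ _ _ _ _ _ := h.dec1 _ _ _ _ _ _ _
  dec2 _ _ _ _ _ _ _ _ _ := h.dec2 _ _ _ _ _ _ _ _ _
  dec3 _ _ _ _ _ _ _ _ _ := h.dec3 _ _ _ _ _ _ _ _ _
  jmp1 _ _ _ _ _ := h.jmp1 _ _ _ _ _
  jmp2 _ _ _ _ _ _ _ := h.jmp2 _ _ _ _ _ _ _
  rst1 _ _ _ _ _ := h.rst1 _ _ _ _ _
  rst2 _ _ _ _ _ := h.rst2 _ _ _ _ _
  rst3 _ _ _ _ _ := h.rst3 _ _ _ _ _
  xz _ _ _ := h.xz _ _ _
  pp _ _ _ _ _ _ := h.pp _ _ _ _ _ _
  nn _ _ _ _ _ := h.nn _ _ _ _ _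

/-- The theory has at most five variables in every axiom. -/
theorem isModel_of_pull {m : Mach} {A : Type} {M : Mdl A}
    (h : ∀ v : Fin 5 → A, IsModel m (M.pull v)) : IsModel m M where
  uf f := (h ![f, f, f, f, f]).uf 0
  us f x y := (h ![f, x, y, f, f]).us 0 1 2
  z0 f := (h ![f, f, f, f, f]).z0 0
  zs f x y x' y' := (h ![f, x, y, x', y']).zs 0 1 2 3 4
  zw f x y z := (h ![f, x, y, z, f]).zw 0 1 2 3
  ws f x y z := (h ![f, x, y, z, f]).ws 0 1 2 3
  c1 f x y := (h ![f, x, y, f, f]).c1 0 1 2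
  c2 f x y := (h ![f, x, y, f, f]).c2 0 1 2
  c3 f x y := (h ![f, x, y, f, f]).c3 0 1 2
  q0 f := (h ![f, f, f, f, f]).q0 0
  h0 f := (h ![f, f, f, f, f]).h0 0
  qq f x := (h ![f, x, f, f, f]).qq 0 1
  hh f x u v := (h ![f, x, u, v, f]).hh 0 1 2 3
  hz f x u v := (h ![f, x, u, v, f]).hz 0 1 2 3
  inc1 f x y := (h ![f, x, y, f, f]).inc1 0 1 2
  inc2 f x y u v := (h ![f, x, y, u, v]).inc2 0 1 2 3 4
  inc3 f x y u := (h ![f, x, y, u, f]).inc3 0 1 2 3
  dec1 f x y := (h ![f, x, y, f, f]).dec1 0 1 2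
  dec2 f x y u v := (h ![f, x, y, u, v]).dec2 0 1 2 3 4
  dec3 f x y u := (h ![f, x, y, u, f]).dec3 0 1 2 3
  jmp1 f x y := (h ![f, x, y, f, f]).jmp1 0 1 2
  jmp2 f x y u := (h ![f, x, y, u, f]).jmp2 0 1 2 3
  rst1 f x y := (h ![f, x, y, f, f]).rst1 0 1 2
  rst2 f x y := (h ![f, x, y, f, f]).rst2 0 1 2
  rst3 f x y := (h ![f, x, y, f, f]).rst3 0 1 2
  xz f x y := (h ![f, x, y, f, f]).xz 0 1 2
  pp f z x y w := (h ![f, z, x, y, w]).pp 0 1 2 3 4
  nn f z x y := (h ![f, z, x, y, f]).nn 0 1 2 3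

/-! ### The structure -/

/-- A retraction of the natural numbers to `{0, ..., n - 1}`. -/
def rho (n a : ℕ) : ℕ := if a < n then a else 0

/-- The structure on the natural numbers given by a finite set of facts. -/
def cmp (c : ℕ × Finset (ℕ × List ℕ)) : Rels ℕ := fun i l => (i, l.map (rho c.1)) ∈ c.2

/-- The components: finite sets of facts which describe a model. -/
def Idx (m : Mach) : Type := {c : ℕ × Finset (ℕ × List ℕ) // IsModel m (toMdl m (cmp c))}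

/-- The domain. -/
abbrev Dom (m : Mach) : Type := Idx m × ℕ

instance (m : Mach) : Countable (Idx m) := by
  unfold Idx
  infer_instance

/-- The relations: a disjoint union, where the relation number `5` holds between elements of
different components. -/
def bigR (m : Mach) : Rels (Dom m) := fun i l =>
  (∃ c : Idx m, (∀ y ∈ l, y.1 = c) ∧ cmp c.1 i (l.map Prod.snd)) ∨
    (i = 5 ∧ ∃ y ∈ l, ∃ y' ∈ l, y.1 ≠ y'.1)

theorem big_same {m : Mach} {c : Idx m} {i : ℕ} {l : List ℕ} (hl : l ≠ []) :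
    bigR m i (l.map (fun a => ((c, a) : Dom m))) ↔ cmp c.1 i l := by
  have e : (l.map (fun a => ((c, a) : Dom m))).map Prod.snd = l := by simp
  unfold bigR
  rw [e]
  constructor
  · rintro (⟨c', h1, h2⟩ | ⟨_, y, hy, y', hy', hne⟩)
    · obtain ⟨a, ha⟩ := List.exists_mem_of_ne_nil l hl
      obtain rfl : c = c' := h1 (c, a) (List.mem_map.2 ⟨a, ha, rfl⟩)
      exact h2
    · obtain ⟨a, _, rfl⟩ := List.mem_map.1 hy
      obtain ⟨a', _, rfl⟩ := List.mem_map.1 hy'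
      exact absurd rfl hne
  · intro h
    refine Or.inl ⟨c, ?_, h⟩
    intro y hy
    obtain ⟨a, _, rfl⟩ := List.mem_map.1 hy
    rfl

theorem pull_big (m : Mach) (c : Idx m) :
    (toMdl m (bigR m)).pull (fun a => ((c, a) : Dom m)) = toMdl m (cmp c.1) := by
  refine (toMdl_congr (r := fun i l => bigR m i (l.map (fun a => ((c, a) : Dom m))))
    fun i l hi => big_same ?_)
  rintro rfl
  have := (tau_bd hi).1
  simp at this

theorem comp_V {m : Mach} {c d : Idx m} {a b : ℕ}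
    (h : (toMdl m (bigR m)).V (c, a) (d, b)) : d = c := by
  by_contra hne
  exact h.2 (Or.inr ⟨rfl, (c, a), by simp, (d, b), by simp, fun h => hne h.symm⟩)

theorem comp_S {m : Mach} {c d : Idx m} {a b : ℕ}
    (h : (toMdl m (bigR m)).S (c, a) (d, b)) : d = c := by
  rcases h with ⟨e, h1, _⟩ | ⟨h, _⟩
  · have e1 := h1 (c, a) (by simp)
    have e2 := h1 (d, b) (by simp)
    exact e2.trans e1.symm
  · omega

theorem isModel_big (m : Mach) : IsModel m (toMdl m (bigR m)) := by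
  have hp : ∀ c : Idx m, IsModel m ((toMdl m (bigR m)).pull (fun a => ((c, a) : Dom m))) := by
    intro c
    rw [pull_big]
    exact c.2
  constructor
  case uf => exact fun ⟨c, f⟩ => (hp c).uf f
  case us =>
    rintro ⟨c, f⟩ ⟨c1, x⟩ ⟨c2, y⟩ h1 h2
    obtain rfl := comp_V h1
    obtain rfl := comp_S h2
    exact (hp _).us f x y h1 h2
  case z0 => exact fun ⟨c, f⟩ => (hp c).z0 f
  case zs =>
    rintro ⟨c, f⟩ ⟨c1, x⟩ ⟨c2, y⟩ ⟨c3, x'⟩ ⟨c4, y'⟩ h1 h2 h3 h4 h5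
    obtain rfl := comp_V h1
    obtain rfl := comp_V h2
    obtain rfl := comp_S h4
    obtain rfl := comp_S h5
    exact (hp _).zs f x y x' y' h1 h2 h3 h4 h5
  case zw =>
    rintro ⟨c, f⟩ ⟨c1, x⟩ ⟨c2, y⟩ ⟨c3, z⟩ h1 h2 h3 h4
    obtain rfl := comp_V h1
    obtain rfl := comp_V h2
    obtain rfl := comp_S h4
    exact (hp _).zw f x y z h1 h2 h3 h4
  case ws =>
    rintro ⟨c, f⟩ ⟨c1, x⟩ ⟨c2, y⟩ ⟨c3, z⟩ h1 h2 h3 h4
    obtain rfl := comp_V h1
    obtain rfl := comp_V h2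
    obtain rfl := comp_S h4
    exact (hp _).ws f x y z h1 h2 h3 h4
  case c1 =>
    rintro ⟨c, f⟩ ⟨c1, x⟩ ⟨c2, y⟩ h1 h2
    obtain rfl := comp_V h1
    obtain rfl := comp_V h2
    exact (hp _).c1 f x y h1 h2
  case c2 =>
    rintro ⟨c, f⟩ ⟨c1, x⟩ ⟨c2, y⟩ h1 h2
    obtain rfl := comp_V h1
    obtain rfl := comp_V h2
    exact (hp _).c2 f x y h1 h2
  case c3 =>
    rintro ⟨c, f⟩ ⟨c1, x⟩ ⟨c2, y⟩ h1 h2
    obtain rfl := comp_V h1
    obtain rfl := comp_V h2
    exact (hp _).c3 f x y h1 h2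
  case q0 => exact fun ⟨c, f⟩ => (hp c).q0 f
  case h0 => exact fun ⟨c, f⟩ => (hp c).h0 f
  case qq =>
    rintro ⟨c, f⟩ ⟨c1, x⟩ q q' h1
    obtain rfl := comp_V h1
    exact (hp _).qq f x q q' h1
  case hh =>
    rintro ⟨c, f⟩ ⟨c1, x⟩ ⟨c2, u⟩ ⟨c3, v⟩ k h1 h2 h3
    obtain rfl := comp_V h1
    obtain rfl := comp_V h2
    obtain rfl := comp_V h3
    exact (hp _).hh f x u v k h1 h2 h3
  case hz =>
    rintro ⟨c, f⟩ ⟨c1, x⟩ ⟨c2, u⟩ ⟨c3, v⟩ k h1 h2 h3
    obtain rfl := comp_V h1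
    obtain rfl := comp_V h2
    obtain rfl := comp_V h3
    exact (hp _).hz f x u v k h1 h2 h3
  case inc1 =>
    rintro ⟨c, f⟩ ⟨c1, x⟩ ⟨c2, y⟩ q k q' hi h1 h2 h3
    obtain rfl := comp_V h1
    obtain rfl := comp_S h3
    exact (hp _).inc1 f x y q k q' hi h1 h2 h3
  case inc2 =>
    rintro ⟨c, f⟩ ⟨c1, x⟩ ⟨c2, y⟩ ⟨c3, u⟩ ⟨c4, v⟩ q k q' hi h1 h2 h3 h4 h5 h6
    obtain rfl := comp_V h1
    obtain rfl := comp_V h2
    obtain rfl := comp_S h4
    obtain rfl := comp_S h6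
    exact (hp _).inc2 f x y u v q k q' hi h1 h2 h3 h4 h5 h6
  case inc3 =>
    rintro ⟨c, f⟩ ⟨c1, x⟩ ⟨c2, y⟩ ⟨c3, u⟩ q k q' k' hi hk h1 h2 h3 h4
    obtain rfl := comp_V h1
    obtain rfl := comp_V h2
    obtain rfl := comp_S h4
    exact (hp _).inc3 f x y u q k q' k' hi hk h1 h2 h3 h4
  case dec1 =>
    rintro ⟨c, f⟩ ⟨c1, x⟩ ⟨c2, y⟩ q k q' q'' hi h1 h2 h3
    obtain rfl := comp_V h1
    obtain rfl := comp_S h3
    exact (hp _).dec1 f x y q k q' q'' hi h1 h2 h3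
  case dec2 =>
    rintro ⟨c, f⟩ ⟨c1, x⟩ ⟨c2, y⟩ ⟨c3, u⟩ ⟨c4, v⟩ q k q' q'' hi h1 h2 h3 h4 h5
    obtain rfl := comp_V h1
    obtain rfl := comp_V h2
    obtain rfl := comp_V h3
    obtain rfl := comp_S h5
    exact (hp _).dec2 f x y u v q k q' q'' hi h1 h2 h3 h4 h5
  case dec3 =>
    rintro ⟨c, f⟩ ⟨c1, x⟩ ⟨c2, y⟩ ⟨c3, u⟩ q k q' q'' k' hi hk h1 h2 h3 h4
    obtain rfl := comp_V h1
    obtain rfl := comp_V h2
    obtain rfl := comp_S h4
    exact (hp _).dec3 f x y u q k q' q'' k' hi hk h1 h2 h3 h4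
  case jmp1 =>
    rintro ⟨c, f⟩ ⟨c1, x⟩ ⟨c2, y⟩ q q' hi h1 h2 h3
    obtain rfl := comp_V h1
    obtain rfl := comp_S h3
    exact (hp _).jmp1 f x y q q' hi h1 h2 h3
  case jmp2 =>
    rintro ⟨c, f⟩ ⟨c1, x⟩ ⟨c2, y⟩ ⟨c3, u⟩ q q' k hi h1 h2 h3 h4
    obtain rfl := comp_V h1
    obtain rfl := comp_V h2
    obtain rfl := comp_S h4
    exact (hp _).jmp2 f x y u q q' k hi h1 h2 h3 h4
  case rst1 =>
    rintro ⟨c, f⟩ ⟨c1, x⟩ ⟨c2, y⟩ q q' hi h1 h2 h3
    obtain rfl := comp_V h1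
    obtain rfl := comp_S h3
    exact (hp _).rst1 f x y q q' hi h1 h2 h3
  case rst2 =>
    rintro ⟨c, f⟩ ⟨c1, x⟩ ⟨c2, y⟩ q q' hi h1 h2 h3
    obtain rfl := comp_V h1
    obtain rfl := comp_S h3
    exact (hp _).rst2 f x y q q' hi h1 h2 h3
  case rst3 =>
    rintro ⟨c, f⟩ ⟨c1, x⟩ ⟨c2, y⟩ q q' k hk hi hk0 h1 h2 h3
    obtain rfl := comp_V h1
    obtain rfl := comp_S h3
    exact (hp _).rst3 f x y q q' k hk hi hk0 h1 h2 h3
  case xz =>
    rintro ⟨c, f⟩ ⟨c1, x⟩ ⟨c2, y⟩ h1 h2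
    obtain rfl := comp_V h1
    obtain rfl := comp_V h2
    exact (hp _).xz f x y h1 h2
  case pp =>
    rintro ⟨c, f⟩ ⟨c1, z⟩ ⟨c2, x⟩ ⟨c3, y⟩ ⟨c4, w⟩ q h1 h2 h3 h4 h5 h6 h7
    obtain rfl := comp_V h1
    obtain rfl := comp_V h5
    obtain rfl := comp_V h6
    obtain rfl := comp_V h7
    exact (hp _).pp f z x y w q h1 h2 h3 h4 h5 h6 h7
  case nn =>
    rintro ⟨c, f⟩ ⟨c1, z⟩ ⟨c2, x⟩ ⟨c3, y⟩ q h1 h2 h3 h4 h5 h6
    obtain rfl := comp_V h1
    obtain rfl := comp_V h5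
    obtain rfl := comp_V h6
    exact (hp _).nn f z x y q h1 h2 h3 h4 h5 h6

/-- a retraction to `Fin n` -/
def rhoF {n : ℕ} (hn : 0 < n) (a : ℕ) : Fin n := if h : a < n then ⟨a, h⟩ else ⟨0, hn⟩

theorem rhoF_val {n : ℕ} (hn : 0 < n) (a : ℕ) : (rhoF hn a).val = rho n a := by
  unfold rhoF rho
  split_ifs <;> rfl

theorem rhoF_of {n : ℕ} (hn : 0 < n) (a : Fin n) : rhoF hn a.val = a := by
  unfold rhoF
  rw [dif_pos a.2]

theorem finite_facts (m : Mach) (k : ℕ) :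
    {p : ℕ × List (Fin k) | (tau m)[p.1]? = some p.2.length}.Finite := by
  refine ((Set.finite_Iio (tau m).length).prod (List.finite_length_le (Fin k) 3)).subset ?_
  rintro ⟨i, l⟩ h
  simp only [Set.mem_ofPred_eq] at h
  refine ⟨?_, (tau_bd h).2⟩
  obtain ⟨h', _⟩ := List.getElem?_eq_some_iff.1 h
  exact h'

theorem embeds_iff {m : Mach} {k : ℕ} (r : Rels (Fin k)) :
    Embeds (tau m) r (bigR m) ↔ IsModel m (toMdl m r) := by
  classical
  constructor
  · rintro ⟨e, _, he⟩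
    rw [toMdl_congr (r' := fun i l => bigR m i (l.map e)) he]
    exact (isModel_big m).pull e
  · intro hM
    rcases Nat.eq_zero_or_pos k with rfl | hk
    · refine ⟨fun a => a.elim0, fun a => a.elim0, fun i l hi => ?_⟩
      cases l with
      | nil => have := (tau_bd hi).1; simp at this
      | cons a _ => exact a.elim0
    · set S : Set (ℕ × List ℕ) := (fun p : ℕ × List (Fin k) => (p.1, p.2.map Fin.val)) ''
        ({p : ℕ × List (Fin k) | (tau m)[p.1]? = some p.2.length} ∩ {p | r p.1 p.2}) with hS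
      have hfin : S.Finite := ((finite_facts m k).inter_of_left _).image _
      set c : ℕ × Finset (ℕ × List ℕ) := (k, hfin.toFinset) with hc
      have hcmp : ∀ i (l : List ℕ), (tau m)[i]? = some l.length →
          (cmp c i l ↔ r i (l.map (rhoF hk))) := by
        intro i l hi
        unfold cmp
        simp only [hc, Set.Finite.mem_toFinset, hS, Set.mem_image, Set.mem_inter_iff,
          Set.mem_ofPred_eq, Prod.mk.injEq, Prod.exists]
        constructor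
        · rintro ⟨i', l', ⟨h1, h2⟩, rfl, h3⟩
          have e : l.map (rhoF hk) = l' := by
            apply List.map_injective_iff.2 Fin.val_injective
            rw [h3, List.map_map]
            exact List.map_congr_left fun a _ => rhoF_val hk a
          rw [e]; exact h2
        · intro h
          refine ⟨i, l.map (rhoF hk), ⟨by simpa using hi, h⟩, rfl, ?_⟩
          rw [List.map_map]
          exact List.map_congr_left fun a _ => rhoF_val hk a
      have hmod : IsModel m (toMdl m (cmp c)) := by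
        rw [toMdl_congr (r' := fun i l => r i (l.map (rhoF hk))) hcmp]
        exact hM.pull (rhoF hk)
      refine ⟨fun a => (⟨c, hmod⟩, a.val), fun a b h => ?_, fun i l hi => ?_⟩
      · have := congrArg Prod.snd h
        exact Fin.val_injective this
      · have e1 : l.map (fun a : Fin k => (((⟨c, hmod⟩ : Idx m), a.val) : Dom m)) =
            (l.map Fin.val).map (fun a => (((⟨c, hmod⟩ : Idx m), a) : Dom m)) := by
          rw [List.map_map]; rfl
        have e2 : l ≠ [] := by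
          rintro rfl
          have := (tau_bd hi).1
          simp at this
        rw [e1, big_same (by simpa using e2)]
        rw [hcmp _ _ (by simpa using hi), List.map_map]
        have e3 : l.map (rhoF hk ∘ Fin.val) = l := by
          conv_rhs => rw [← List.map_id l]
          exact List.map_congr_left fun a _ => rhoF_of hk a
        rw [e3]

theorem finitelyBounded (m : Mach) : FinitelyBounded (tau m) (bigR m) := by
  classical
  set ι : Type := {p : Σ n : Fin 6, {S : Set (ℕ × List (Fin n)) //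
      S ⊆ {p : ℕ × List (Fin n) | (tau m)[p.1]? = some p.2.length}} //
      ¬ IsModel m (toMdl m (fun i l => (i, l) ∈ p.2.1))} with hι
  have hf : ∀ n : Fin 6, Finite {S : Set (ℕ × List (Fin n)) //
      S ⊆ {p : ℕ × List (Fin n) | (tau m)[p.1]? = some p.2.length}} := fun n =>
    (finite_facts m n).finite_subsets.to_subtype
  have hfin : Finite ι := Subtype.finite
  refine ⟨ι, hfin, fun i => i.1.1, fun i => fun j l => (j, l) ∈ i.1.2.1, fun k B => ?_⟩
  rw [embeds_iff]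
  constructor
  · rintro hB ⟨⟨n, S, hS⟩, hbad⟩ ⟨e, _, he⟩
    apply hbad
    rw [toMdl_congr (r' := fun i l => B i (l.map e)) he]
    exact hB.pull e
  · intro h
    by_contra hB
    have h1 : ∃ v : Fin 5 → Fin k, ¬ IsModel m ((toMdl m B).pull v) := by
      by_contra hcon
      push Not at hcon
      exact hB (isModel_of_pull hcon)
    obtain ⟨v, hv⟩ := h1
    obtain ⟨n, hn, e, he, w, hw⟩ : ∃ n : ℕ, n ≤ 5 ∧ ∃ e : Fin n → Fin k, Injective e ∧
        ∃ w : Fin 5 → Fin n, v = e ∘ w := by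
      have hcard : (Finset.univ.image v).card ≤ 5 := by
        simpa using Finset.card_image_le (s := Finset.univ) (f := v)
      set R := Finset.univ.image v with hR
      refine ⟨R.card, hcard, fun a => (R.equivFin.symm a).1, ?_, fun i => R.equivFin ⟨v i, ?_⟩, ?_⟩
      · intro a b hab
        exact R.equivFin.symm.injective (Subtype.ext hab)
      · rw [hR]
        exact Finset.mem_image_of_mem _ (Finset.mem_univ _)
      · funext i
        simp
    have hS : {p : ℕ × List (Fin n) | (tau m)[p.1]? = some p.2.length ∧ B p.1 (p.2.map e)} ⊆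
        {p : ℕ × List (Fin n) | (tau m)[p.1]? = some p.2.length} := fun p hp => hp.1
    have hbad : ¬ IsModel m (toMdl m (fun i l => (i, l) ∈
        {p : ℕ × List (Fin n) | (tau m)[p.1]? = some p.2.length ∧ B p.1 (p.2.map e)})) := by
      intro hmod
      apply hv
      rw [toMdl_congr (r' := fun i l => B i (l.map e))] at hmod
      · have := hmod.pull w
        rw [hw]
        exact this
      · intro i l hi
        simp [hi]
    refine h ⟨⟨⟨n, by omega⟩, _, hS⟩, hbad⟩ ⟨e, he, fun i l hi => ?_⟩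
    simp only [Set.mem_ofPred_eq]
    exact ⟨fun h => h.2, fun h => ⟨hi, h⟩⟩

/-- The instance as a structure on the natural numbers. -/
def insR (I : Inst) : Rels ℕ := fun i l => (i, l) ∈ I.2

theorem csp_iff {m : Mach} (hm : m.OK) (I : Inst) : CSP (tau m) (bigR m) I ↔
    IsInst (tau m) I ∧ ∀ f, (toMdl m (insR I)).F f → GoodAt m (toMdl m (insR I)) f := by
  unfold CSP
  refine and_congr_right fun hI => ⟨?_, ?_⟩
  · rintro ⟨h, hh⟩ f hf
    have hf1 : f < I.1.length := (hI (0, [f]) hf).2 f (by simp)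
    have hn : 0 < I.1.length := by omega
    have hM := (isModel_big m).pull (fun a => h (rhoF hn a))
    refine good_of_model hm hM (toMdl_nice _ _) ?_ hf
    refine toMdl_sub (r' := fun i l => bigR m i (l.map (fun a => h (rhoF hn a)))) ?_
    intro i l hl
    have h2 := (hI (i, l) hl).2
    have e1 : (l.map (rhoF hn)).map Fin.val = l := by
      rw [List.map_map]
      conv_rhs => rw [← List.map_id l]
      refine List.map_congr_left fun a ha => ?_
      simp only [comp_apply, rhoF_val, rho, id]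
      rw [if_pos (h2 a ha)]
    have h3 := hh i (l.map (rhoF hn)) (by rw [e1]; exact hl)
    rw [List.map_map] at h3
    exact h3
  · intro hg
    obtain ⟨M, hM, hs, hnice⟩ := model_of_good hm (toMdl_nice _ _) hg
    have h1 : IsModel m (toMdl m (fun i (l : List (Fin I.1.length)) =>
        ofMdl m M i (l.map Fin.val))) := by
      have := hM.pull (Fin.val : Fin I.1.length → ℕ)
      rw [← toMdl_ofMdl hnice] at this
      exact this
    obtain ⟨e, _, he⟩ := (embeds_iff _).2 h1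
    refine ⟨e, fun i l hl => ?_⟩
    have h2 := (hI _ hl).1
    simp only [List.length_map] at h2
    exact (he i l h2).1 (ofMdl_of_sub hs (by simpa using h2) hl)

end Pool.Agent.H593R3.FBC
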