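import Pool.Agent.H593R3.FBC.KSat
import Pool.Agent.NPC.Sat2

/-!
# Hard instances
-/

namespace Pool.Agent.H593R3.FBC

open Function Pool.Agent.NPC

/-- Conjunctions of clauses with three literals. -/
abbrev F3 : Type := List (Lit ℕ × Lit ℕ × Lit ℕ)

/-- The depth attached to a literal. -/
def lt (l : Lit ℕ) : ℕ := 2 * l.2 + (if l.1 = true then 1 else 0)

/-- The depth of the last node. -/
def nn (x : F3 × List Unit) : ℕ := 6 * x.1.length + x.2.length

/-- The instance attached to a formula. -/
def gI (x : F3 × List Unit) : Inst :=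
  (List.replicate (nn x + 1) (),
    [(0, [0]), (1, [nn x])] ++ ((List.range (nn x)).map (fun i => (2, [i, i + 1])) ++
      (x.1.map (fun c => (3, [lt c.1, lt c.2.1, lt c.2.2])) ++
        (List.range (3 * x.1.length)).map (fun v => (4, [2 * v, 2 * v + 1])))))

theorem uPoly_nn : UPoly nn := by
  unfold nn
  exact ((UPoly.const 6).mul (UPoly.length (by fun_prop))).add (UPoly.length (by fun_prop))

theorem poly_gI : Poly gI := by
  unfold gI lt
  have h1 : Poly (fun x : F3 × List Unit => List.replicate (nn x + 1) ()) :=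
    uPoly_nn.add (UPoly.const 1)
  have h2 := uPoly_nn.range
  have h3 := uPoly_nn.toPoly
  have h4 : Poly (fun x : F3 × List Unit => List.range (3 * x.1.length)) :=
    ((UPoly.const 3).mul (UPoly.length (by fun_prop))).range
  fun_prop

theorem mem_gI {x : F3 × List Unit} {i : ℕ} {l : List ℕ} : (i, l) ∈ (gI x).2 ↔
    (i = 0 ∧ l = [0]) ∨ (i = 1 ∧ l = [nn x]) ∨ (∃ j < nn x, i = 2 ∧ l = [j, j + 1]) ∨
    (∃ c ∈ x.1, i = 3 ∧ l = [lt c.1, lt c.2.1, lt c.2.2]) ∨
    ∃ v < 3 * x.1.length, i = 4 ∧ l = [2 * v, 2 * v + 1] := by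
  unfold gI
  simp only [List.mem_append, List.mem_cons, Prod.mk.injEq, List.not_mem_nil, or_false,
    List.mem_map, List.mem_range]
  constructor
  · rintro ((h | h) | ⟨j, hj, rfl, rfl⟩ | ⟨c, hc, rfl, rfl⟩ | ⟨v, hv, rfl, rfl⟩)
    · exact Or.inl h
    · exact Or.inr (Or.inl h)
    · exact Or.inr (Or.inr (Or.inl ⟨j, hj, rfl, rfl⟩))
    · exact Or.inr (Or.inr (Or.inr (Or.inl ⟨c, hc, rfl, rfl⟩)))
    · exact Or.inr (Or.inr (Or.inr (Or.inr ⟨v, hv, rfl, rfl⟩)))
  · rintro (h | h | ⟨j, hj, rfl, rfl⟩ | ⟨c, hc, rfl, rfl⟩ | ⟨v, hv, rfl, rfl⟩)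
    · exact Or.inl (Or.inl h)
    · exact Or.inl (Or.inr h)
    · exact Or.inr (Or.inl ⟨j, hj, rfl, rfl⟩)
    · exact Or.inr (Or.inr (Or.inl ⟨c, hc, rfl, rfl⟩))
    · exact Or.inr (Or.inr (Or.inr ⟨v, hv, rfl, rfl⟩))

theorem lt_lt {x : F3 × List Unit} (hb : Bounded3 x.1) {c : Lit ℕ × Lit ℕ × Lit ℕ}
    (hc : c ∈ x.1) : lt c.1 < nn x ∧ lt c.2.1 < nn x ∧ lt c.2.2 < nn x := by
  obtain ⟨h1, h2, h3⟩ := hb c hc
  have key : ∀ l : Lit ℕ, l.2 < 3 * x.1.length → lt l < nn x := by
    intro l hl
    unfold lt nn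
    split_ifs <;> omega
  exact ⟨key _ h1, key _ h2, key _ h3⟩

theorem isInst_gI {m : Mach} {x : F3 × List Unit} (hb : Bounded3 x.1) :
    IsInst (tau m) (gI x) := by
  rintro ⟨i, l⟩ h
  have hl : (gI x).1.length = nn x + 1 := by simp [gI]
  rw [hl]
  rcases mem_gI.1 h with ⟨rfl, rfl⟩ | ⟨rfl, rfl⟩ | ⟨j, hj, rfl, rfl⟩ | ⟨c, hc, rfl, rfl⟩ |
    ⟨v, hv, rfl, rfl⟩
  · exact ⟨rfl, by simp⟩
  · exact ⟨rfl, by simp⟩
  · refine ⟨rfl, ?_⟩
    simp only [List.mem_cons, List.not_mem_nil, or_false, forall_eq_or_imp, forall_eq]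
    omega
  · refine ⟨rfl, ?_⟩
    obtain ⟨h1, h2, h3⟩ := lt_lt hb hc
    simp only [List.mem_cons, List.not_mem_nil, or_false, forall_eq_or_imp, forall_eq]
    omega
  · refine ⟨rfl, ?_⟩
    have : nn x = 6 * x.1.length + x.2.length := rfl
    simp only [List.mem_cons, List.not_mem_nil, or_false, forall_eq_or_imp, forall_eq]
    omega

theorem csp_gI {m : Mach} (hm : m.OK) {x : F3 × List Unit} (hb : Bounded3 x.1) :
    CSP (tau m) (bigR m) (gI x) ↔ (m.flag (nn x) = true → SAT3 x.1) := by
  rw [csp_iff hm]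
  have hF : ∀ f, (toMdl m (insR (gI x))).F f ↔ f = 0 := by
    intro f
    change (0, [f]) ∈ (gI x).2 ↔ _
    rw [mem_gI]
    simp
  have hS : ∀ a b, (toMdl m (insR (gI x))).S a b ↔ a < nn x ∧ b = a + 1 := by
    intro a b
    change (2, [a, b]) ∈ (gI x).2 ↔ _
    rw [mem_gI]
    simp only [OfNat.ofNat_ne_zero, false_and, OfNat.ofNat_ne_one, true_and, false_or,
      Nat.reduceEqDiff, and_false, exists_false, or_false, List.cons.injEq, and_true]
    constructor
    · rintro ⟨j, hj, rfl, rfl⟩
      exact ⟨hj, rfl⟩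
    · rintro ⟨h1, rfl⟩
      exact ⟨a, h1, rfl, rfl⟩
  have hD : ∀ i a, Dp (toMdl m (insR (gI x))).S 0 i a ↔ a = i ∧ i ≤ nn x := by
    intro i
    induction i with
    | zero => intro a; simp [Dp]
    | succ i ih =>
      intro a
      constructor
      · rintro ⟨b, h1, h2⟩
        rw [ih] at h1
        rw [hS] at h2
        omega
      · rintro ⟨rfl, h⟩
        exact ⟨i, (ih i).2 ⟨rfl, by omega⟩, (hS _ _).2 ⟨by omega, rfl⟩⟩
  have hL : ∀ a, (toMdl m (insR (gI x))).L a ↔ a = nn x := by
    intro a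
    change (1, [a]) ∈ (gI x).2 ↔ _
    rw [mem_gI]
    simp
  have hno : ∀ i, 5 ≤ i → ∀ l, (i, l) ∉ (gI x).2 := by
    intro i hi l h
    rw [mem_gI] at h
    rcases h with h | h | ⟨_, _, h⟩ | ⟨_, _, h⟩ | ⟨_, _, h⟩ <;> omega
  have hgood : GoodAt m (toMdl m (insR (gI x))) 0 ↔ (m.flag (nn x) = true → SAT3 x.1) := by
    constructor
    · intro hg hfl
      obtain ⟨ξ, _, h2⟩ := hg.x
      obtain ⟨h3, h4⟩ := h2 (nn x) (nn x) ((hD _ _).2 ⟨rfl, le_rfl⟩) ((hL _).2 rfl) hfl
      refine ⟨fun v => ξ (2 * v + 1), fun c hc => ?_⟩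
      obtain ⟨b1, b2, b3⟩ := lt_lt hb hc
      obtain ⟨d1, d2, d3⟩ := hb c hc
      have hn : nn x = 6 * x.1.length + x.2.length := rfl
      have h5 := h3 (lt c.1) (lt c.2.1) (lt c.2.2) _ _ _ ((hD _ _).2 ⟨rfl, b1.le⟩)
        ((hD _ _).2 ⟨rfl, b2.le⟩) ((hD _ _).2 ⟨rfl, b3.le⟩) b1 b2 b3
        (by
          change (3, [lt c.1, lt c.2.1, lt c.2.2]) ∈ (gI x).2
          rw [mem_gI]
          exact Or.inr (Or.inr (Or.inr (Or.inl ⟨c, hc, rfl, rfl⟩))))
      have key : ∀ l : Lit ℕ, l.2 < 3 * x.1.length → ξ (lt l) = true →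
          ξ (2 * l.2 + 1) = l.1 := by
        rintro ⟨b, v⟩ hv hl
        have h6 := h4 (2 * v) (2 * v + 1) _ _ ((hD _ _).2 ⟨rfl, by simp only at hv; omega⟩)
          ((hD _ _).2 ⟨rfl, by simp only at hv; omega⟩) (by simp only at hv; omega)
          (by simp only at hv; omega) (by
            change (4, [2 * v, 2 * v + 1]) ∈ (gI x).2
            rw [mem_gI]
            exact Or.inr (Or.inr (Or.inr (Or.inr ⟨v, hv, rfl, rfl⟩))))
        unfold lt at hl
        cases b
        · simp only [Bool.false_eq_true, if_false, add_zero] at hl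
          simp only
          rw [← Bool.not_eq_true]
          exact fun h => h6 ⟨hl, h⟩
        · simpa using hl
      rcases h5 with h | h | h
      · exact Or.inl (key _ d1 h)
      · exact Or.inr (Or.inl (key _ d2 h))
      · exact Or.inr (Or.inr (key _ d3 h))
    · intro h
      constructor
      · intro i j a h1 h2
        rw [hD] at h1 h2
        omega
      · intro i a _ h2
        exact hno 5 le_rfl _ h2
      · intro i j a b _ _ h2
        exact absurd h2 (hno 7 (by omega) _)
      · intro i j a b _ _ h2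
        exact absurd h2 (hno 8 (by omega) _)
      · intro i a q _ h2
        exact absurd h2.2 (hno _ (by omega) _)
      · intro i j a b k _ _ h2
        exact absurd h2.2 (hno _ (by omega) _)
      · by_cases hfl : m.flag (nn x) = true
        · obtain ⟨v, hv⟩ := h hfl
          refine ⟨fun i => if i % 2 = 1 then v (i / 2) else !(v (i / 2)),
            fun i a _ h2 => absurd h2 (hno 6 (by omega) _), fun n z h1 h2 _ => ?_⟩
          constructor
          · intro a b c a' b' c' ha hb' hc _ _ _ hP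
            rw [hD] at ha hb' hc
            obtain ⟨rfl, _⟩ := ha
            obtain ⟨rfl, _⟩ := hb'
            obtain ⟨rfl, _⟩ := hc
            have hP' : (3, [a', b', c']) ∈ (gI x).2 := hP
            rw [mem_gI] at hP'
            rcases hP' with h' | h' | ⟨_, _, h', _⟩ | ⟨cl, hcl, _, h'⟩ | ⟨_, _, h', _⟩
            · omega
            · omega
            · omega
            · simp only [List.cons.injEq, and_true] at h'
              obtain ⟨rfl, rfl, rfl⟩ := h'
              have key : ∀ l : Lit ℕ, v l.2 = l.1 →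
                  (if lt l % 2 = 1 then v (lt l / 2) else !(v (lt l / 2))) = true := by
                rintro ⟨b, w⟩ hw
                unfold lt
                cases b
                · simp only at hw
                  simp [hw]
                · simp only at hw
                  have e1 : (2 * w + 1) % 2 = 1 := by omega
                  have e2 : (2 * w + 1) / 2 = w := by omega
                  simp [e2, hw]
              rcases hv cl hcl with h | h | h
              · exact Or.inl (key _ h)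
              · exact Or.inr (Or.inl (key _ h))
              · exact Or.inr (Or.inr (key _ h))
            · omega
          · intro a b a' b' ha hb' _ _ hN
            rw [hD] at ha hb'
            obtain ⟨rfl, _⟩ := ha
            obtain ⟨rfl, _⟩ := hb'
            have hN' : (4, [a', b']) ∈ (gI x).2 := hN
            rw [mem_gI] at hN'
            rcases hN' with h' | h' | ⟨_, _, h', _⟩ | ⟨cl, hcl, h', _⟩ | ⟨w, _, _, h'⟩
            · omega
            · omega
            · omega
            · omega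
            · simp only [List.cons.injEq, and_true] at h'
              obtain ⟨rfl, rfl⟩ := h'
              have e1 : (2 * w + 1) % 2 = 1 := by omega
              have e2 : (2 * w + 1) / 2 = w := by omega
              simp [e2]
        · refine ⟨fun _ => true, fun _ _ _ _ => rfl, fun n z h1 h2 h3 => ?_⟩
          rw [hD] at h1
          rw [hL] at h2
          exfalso
          apply hfl
          have : n = nn x := by omega
          rw [← this]; exact h3
  simp only [hF, forall_eq, hgood, isInst_gI hb, true_and]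

end Pool.Agent.H593R3.FBC
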