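import Pool.Agent.H593R3.FBC.Red
import Pool.Agent.H639R2.NTP.Viol

/-!
# Deciding the problem about sets of clauses; membership in `NP`
-/

namespace Pool.Agent.H593R3.FBC

open Function Pool.Agent.NPC
open Pool.Agent.H639R2.NTP.C5 (allL mem_allL)

/-- The flags given by a finite list, followed by zeros. -/
def fin (s : List Bool) : ℕ → Bool := fun n => s.getD n false

theorem fin_lt {s : List Bool} {n : ℕ} (h : fin s n = true) : n < s.length := by
  by_contra hcon
  unfold fin at h
  rw [List.getD_eq_default _ _ (by omega)] at h
  simp at h

/-- The test for an assignment. -/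
def chk1 (s w : List Bool) (c : Loc) : Bool :=
  (c.2.1.all (fun i => decide (s.length ≤ i) || w.getD i false)) &&
  c.1.all (fun n => !(s.getD n false) ||
    (c.2.2.1.all (fun p => !(decide (p.1 < n) && decide (p.2.1 < n) && decide (p.2.2 < n)) ||
      (w.getD p.1 false || w.getD p.2.1 false || w.getD p.2.2 false)) &&
    c.2.2.2.all (fun p => !(decide (p.1 < n) && decide (p.2 < n)) ||
      !(w.getD p.1 false && w.getD p.2 false))))

theorem poly_chk1 {α : Type} [TEnc α] {s w : α → List Bool} {c : α → Loc} (hs : Poly s)
    (hw : Poly w) (hc : Poly c) : Poly (fun a => chk1 (s a) (w a) (c a)) := by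
  unfold chk1
  fun_prop

theorem locSat_of_chk1 {s w : List Bool} {c : Loc} (h : chk1 s w c = true) :
    LocSat (fin s) c := by
  unfold chk1 at h
  unfold LocSat ClOK
  simp only [List.all_eq_true, Bool.and_eq_true, Bool.or_eq_true, Bool.not_eq_true',
    decide_eq_true_eq, Bool.and_eq_false_iff, decide_eq_false_iff_not, Prod.forall] at h ⊢
  obtain ⟨h1, h2⟩ := h
  refine ⟨fun i => if i < s.length then w.getD i false else true, fun i hi => ?_,
    fun n hn hsn => ?_⟩
  · rcases h1 i hi with h | h
    · simp only
      rw [if_neg (by omega)]
    · simp only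
      split_ifs
      · exact h
      · rfl
  · have hlt := fin_lt hsn
    rcases h2 n hn with h | ⟨h3, h4⟩
    · unfold fin at hsn
      rw [h] at hsn
      simp at hsn
    · constructor
      · rintro a b d hp ha hb hd
        beta_reduce
        rw [if_pos (by omega), if_pos (by omega), if_pos (by omega)]
        rcases h3 a b d hp with h | h
        · omega
        · tauto
      · rintro a b hp ha hb
        beta_reduce
        rw [if_pos (by omega), if_pos (by omega)]
        rcases h4 a b hp with h | h
        · omega
        · rintro ⟨h5, h6⟩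
          rw [h5, h6] at h
          simp at h

theorem locSat_iff (s : List Bool) (c : Loc) :
    LocSat (fin s) c ↔ ∃ w : List Bool, w.length ≤ s.length ∧ chk1 s w c = true := by
  constructor
  swap
  · rintro ⟨w, _, h⟩
    exact locSat_of_chk1 h
  unfold LocSat ClOK chk1
  simp only [List.all_eq_true, Bool.and_eq_true, Bool.or_eq_true, Bool.not_eq_true',
    decide_eq_true_eq, Bool.and_eq_false_iff, decide_eq_false_iff_not, Prod.forall]
  · rintro ⟨ξ, h1, h2⟩
    have hw : ∀ i < s.length, ((List.range s.length).map ξ).getD i false = ξ i := by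
      intro i hi
      rw [List.getD_eq_getElem _ _ (by simpa using hi)]
      simp
    refine ⟨(List.range s.length).map ξ, by simp, fun i hi => ?_, fun n hn => ?_⟩
    · by_cases h : s.length ≤ i
      · exact Or.inl h
      · right
        rw [hw i (by omega)]
        exact h1 i hi
    · by_cases hsn : fin s n = true
      · right
        have hlt := fin_lt hsn
        obtain ⟨h3, h4⟩ := h2 n hn hsn
        constructor
        · intro a b d hp
          by_cases hab : a < n ∧ b < n ∧ d < n
          · right
            rw [hw a (by omega), hw b (by omega), hw d (by omega)]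
            rcases h3 a b d hp hab.1 hab.2.1 hab.2.2 with h | h | h
            · exact Or.inl (Or.inl h)
            · exact Or.inl (Or.inr h)
            · exact Or.inr h
          · left
            omega
        · intro a b hp
          by_cases hab : a < n ∧ b < n
          · right
            rw [hw a (by omega), hw b (by omega)]
            have := h4 a b hp hab.1 hab.2
            cases h5 : ξ a <;> cases h6 : ξ b <;> simp_all
          · left
            omega
      · left
        simpa [fin] using hsn

/-- The decision procedure, for fixed flags. -/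
def dK (s : List Bool) (K : KI) : Bool :=
  K.elim false (fun l => l.all (fun c => (allL s.length).any (fun w => chk1 s w c)))

theorem dK_iff (s : List Bool) (K : KI) : KSat (fin s) K ↔ dK s K = true := by
  unfold KSat dK
  cases K with
  | none => simp
  | some l =>
    simp only [Option.some.injEq, exists_eq_left', Option.elim_some, List.all_eq_true,
      List.any_eq_true]
    refine forall_congr' fun c => forall_congr' fun _ => ?_
    rw [locSat_iff]
    refine exists_congr fun w => ?_
    rw [mem_allL]

theorem poly_dK (s : List Bool) : Poly (dK s) := by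
  unfold dK
  have h1 : Poly (fun p : (KI × List Loc) × Loc =>
      (allL s.length).any (fun w => chk1 s w p.2)) := by
    refine Poly.any (p := fun (p : (KI × List Loc) × Loc) w => chk1 s w p.2) (by fun_prop) ?_
    exact poly_chk1 (by fun_prop) (by fun_prop) (by fun_prop)
  fun_prop

theorem ksat_congr {s s' : ℕ → Bool} {K : KI}
    (h : ∀ l, K = some l → ∀ c ∈ l, ∀ n ∈ c.1, s n = s' n) : KSat s K ↔ KSat s' K := by
  unfold KSat
  refine exists_congr fun l => and_congr_right fun hl => forall_congr' fun c =>
    forall_congr' fun hc => ?_
  unfold LocSat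
  refine exists_congr fun ξ => and_congr_right fun _ => forall_congr' fun n =>
    forall_congr' fun hn => ?_
  rw [h l hl c hc n hn]

/-- The flags computed by the machine. -/
def flagsL (m : Mach) (I : Inst) : List Bool :=
  (List.range (I.1.length + 1)).map (fun i =>
    ((List.range m.nQ).map m.act).getD (cfg m I i).2.1 false)

theorem poly_flagsL {m : Mach} (hm : m.OK) : Poly (flagsL m) := by
  unfold flagsL
  have h1 : UPoly (fun I : Inst => I.1.length + 1) :=
    (UPoly.length (by fun_prop)).add (UPoly.const 1)
  have h2 := h1.range
  have h3 : Poly (fun p : Inst × ℕ => cfg m p.1 p.2) := poly_cfg hm (by fun_prop) (by fun_prop)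
  fun_prop

theorem fin_flagsL {m : Mach} (hm : m.OK) {I : Inst} {n : ℕ} (hn : n ≤ I.1.length) :
    fin (flagsL m I) n = m.flag n := by
  unfold fin flagsL
  rw [List.getD_eq_getElem _ _ (by simp; omega)]
  simp only [List.getElem_map, List.getElem_range]
  rw [cfg_eq hm hn]
  simp only
  rw [List.getD_eq_getElem _ _ (by simpa using m.lab_lt hm n)]
  simp [Mach.flag]

theorem loc_bd {I : Inst} {f n : ℕ} (hn : n ∈ (loc I f).1) : n ≤ I.1.length := by
  simp only [loc, List.mem_flatMap, Prod.exists] at hn
  obtain ⟨i, z, h1, h2⟩ := hn
  split_ifs at h2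
  · simp only [List.mem_singleton] at h2
    subst h2
    exact ((mem_DL (m := ⟨fun _ => .jmp 0, 0, 0, fun _ => false⟩)).1 h1).1
  · simp at h2

theorem red_bd {m : Mach} {I : Inst} {l : List Loc} (h : red m I = some l) :
    l.length ≤ I.1.length ∧ ∀ c ∈ l, ∀ n ∈ c.1, n ≤ I.1.length := by
  unfold red at h
  split_ifs at h with h'
  simp only [Option.some.injEq] at h
  subst h
  constructor
  · rw [List.length_map]
    unfold Fs
    exact (List.length_filter_le _ _).trans (by simp)
  · intro c hc n hn
    obtain ⟨f, _, rfl⟩ := List.mem_map.1 hc
    exact loc_bd hn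

/-- The verifier. -/
def ver (m : Mach) (x : Inst × List (List Bool)) : Bool :=
  (red m x.1).elim false (fun l => decide (l.length = x.2.length) &&
    (l.zip x.2).all (fun p => chk1 (flagsL m x.1) p.2 p.1))

theorem poly_ver {m : Mach} (hm : m.OK) : Poly (ver m) := by
  unfold ver
  have h1 := poly_red hm
  have h2 := poly_flagsL hm
  have h3 : Poly (fun p : (((Inst × List (List Bool)) × List Loc) × (Loc × List Bool)) =>
      chk1 (flagsL m p.1.1.1) p.2.2 p.2.1) := poly_chk1 (by fun_prop) (by fun_prop) (by fun_prop)
  fun_prop

theorem csp_inNP {m : Mach} (hm : m.OK) : InNPP (CSP (tau m) (bigR m)) := by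
  refine inNPP_of (poly_ver hm) (Polynomial.X * (4 * (Polynomial.X + 1) + 1 + 1) + 1)
    fun I => ?_
  rw [csp_red hm]
  have hlen : I.1.length ≤ sz I := by
    obtain ⟨a, b⟩ := I
    have := length_lt_sz a
    simp only [sz_pair]
    omega
  have hcong : KSat m.flag (red m I) ↔ KSat (fin (flagsL m I)) (red m I) :=
    ksat_congr fun l hl c hc n hn => (fin_flagsL hm ((red_bd hl).2 c hc n hn)).symm
  rw [hcong]
  have hv : ∀ ws, ver m (I, ws) = (red m I).elim false (fun l => decide (l.length = ws.length) &&
    (l.zip ws).all (fun p => chk1 (flagsL m I) p.2 p.1)) := fun _ => rfl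
  simp only [hv]
  unfold KSat
  cases hr : red m I with
  | none => simp
  | some l =>
    obtain ⟨hb1, hb2⟩ := red_bd hr
    simp only [Option.some.injEq, exists_eq_left', Option.elim_some, Bool.and_eq_true,
      decide_eq_true_eq, List.all_eq_true]
    constructor
    · intro h
      have h2 : ∀ c ∈ l, ∃ w : List Bool, w.length ≤ (flagsL m I).length ∧
          chk1 (flagsL m I) w c = true := fun c hc => (locSat_iff _ _).1 (h c hc)
      choose! w hw1 hw2 using h2
      refine ⟨l.map w, ?_, by simp, ?_⟩
      · have e1 := sz_le_length_mul (l.map w) (4 * (I.1.length + 1) + 1) (by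
          intro a ha
          obtain ⟨c, hc, rfl⟩ := List.mem_map.1 ha
          have := hw1 c hc
          have := sz_listBool_le (w c)
          have e3 : (flagsL m I).length = I.1.length + 1 := by simp [flagsL]
          omega)
        rw [List.length_map] at e1
        simp only [Polynomial.eval_add, Polynomial.eval_mul, Polynomial.eval_X,
          Polynomial.eval_ofNat, Polynomial.eval_one]
        refine e1.trans ?_
        gcongr
        omega
      · rintro ⟨c, v⟩ hcv
        rw [List.zip_map_right, List.mem_map] at hcv
        obtain ⟨⟨c', c''⟩, h3, h4⟩ := hcv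
        simp only [Prod.map_apply, id_eq, Prod.mk.injEq] at h4
        obtain ⟨rfl, rfl⟩ := h4
        have h5 : ∀ (l : List Loc) (a b : Loc), (a, b) ∈ l.zip l → a = b ∧ a ∈ l := by
          intro l a b hab
          rw [List.mem_iff_getElem] at hab
          obtain ⟨i, hi, he⟩ := hab
          rw [List.getElem_zip] at he
          simp only [Prod.mk.injEq] at he
          refine ⟨he.1.symm.trans he.2, ?_⟩
          rw [← he.1]
          exact List.getElem_mem _
        obtain ⟨rfl, h6⟩ := h5 _ _ _ h3
        exact hw2 _ h6
    · rintro ⟨ws, _, h1, h2⟩ c hc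
      obtain ⟨i, hi, rfl⟩ := List.mem_iff_getElem.1 hc
      have h3 := h2 (l[i], ws[i]'(by omega)) (by
        rw [List.mem_iff_getElem]
        exact ⟨i, by simp; omega, by simp⟩)
      simp only at h3
      exact locSat_of_chk1 h3

end Pool.Agent.H593R3.FBC
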