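import Pool.Agent.H593R3.FBC.Prim

/-!
# The search succeeds, and the diagonal argument
-/

namespace Pool.Agent.H593R3.FBC

open Function Pool.Agent.NPC Pool.Agent.H660R2.NX
open Pool.Agent.H639R2.NTP.C5 (allL mem_allL)
open Pool.Agent.H639R2.NTP (exists_pow_bound)

attribute [local irreducible] unpair

/-- `P ≠ NP` -/
def PNeNP : Prop := ∃ L : Set (List Bool), InNP L ∧ ¬ InP L

theorem poly_FU (z : List Bool) (k : ℕ) : Poly (FU z k) := by
  unfold FU UB
  cases h : unbits Code z with
  | none => exact NPC.Poly.const []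
  | some e =>
    simp only [Option.elim_some, List.length_replicate]
    have h1 : UPoly (fun x : List Bool => x.length ^ k + k) := by
      refine ((UPoly.length NPC.Poly.id).eval (Polynomial.X ^ k + Polynomial.C k)).congr
        fun x => by simp
    refine Poly.optGetD ?_ (by fun_prop)
    refine (poly_U.comp (f := fun x : List Bool => (e, x, List.replicate (x.length ^ k + k) ()))
      (NPC.Poly.pair (NPC.Poly.const e) (NPC.Poly.pair NPC.Poly.id h1))).congr fun x => ?_
    simp

theorem exists_FU {f : List Bool → List Bool} (hf : PolyTime f) :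
    ∃ (z : List Bool) (k : ℕ), ∀ x y, k ≤ x → y ≠ [] → FU z x y = f y := by
  obtain ⟨e, p, he⟩ := U_complete hf
  obtain ⟨k, hk⟩ := exists_pow_bound p
  refine ⟨bits e, k, fun x y hx hy => ?_⟩
  unfold FU UB
  rw [unbits_bits]
  simp only [Option.elim_some, List.length_replicate]
  have h1 : 1 ≤ y.length := List.length_pos_iff.2 hy
  have h2 : y.length ^ k ≤ y.length ^ x := Nat.pow_le_pow_right h1 hx
  rw [he y _ ((hk _).trans (by omega))]
  rfl

theorem bits_ne_nil {α : Type} [TEnc α] (a : α) : bits a ≠ [] := T.enc_ne_nil _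

/-- all depths of end nodes -/
def nsL (K : KI) : List ℕ := K.elim [] (fun l => l.flatMap (fun c => c.1))

theorem nsB_iff (y : List Bool) (N : ℕ) :
    nsB y (List.replicate N true) = true ↔ ∀ n ∈ nsL (decK y), n < N := by
  unfold nsB nsL
  cases decK y with
  | none => simp
  | some l =>
    simp only [Option.elim_some, List.all_eq_true, decide_eq_true_eq, List.length_replicate,
      List.mem_flatMap]
    constructor
    · rintro h n ⟨c, hc, hn⟩
      exact h c hc n hn
    · intro h c hc n hn
      exact h n ⟨c, hc, hn⟩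

theorem decK_length (y : List Bool) : ∀ l, decK y = some l → l.length ≤ y.length := by
  intro l h
  unfold decK at h
  cases hu : unbits KI y with
  | none => rw [hu] at h; simp at h
  | some K =>
    rw [hu] at h
    simp only [Option.getD_some] at h
    subst h
    have h1 := bits_of_unbits hu
    have h2 := length_lt_sz l
    rw [← h1, bits_length]
    simp only [sz_some]
    omega

theorem exists_W1 (hP : PNeNP) (x : ℕ) (z : List Bool) :
    ∃ v : ℕ, ∀ᶠ N in Filter.atTop, W1 x z (str v) N := by
  by_contra hcon'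
  have hcon : ∀ v : ℕ, ¬ _ := fun v hv => hcon' ⟨v, hv⟩
  obtain ⟨L, hL, hL'⟩ := hP
  apply hL'
  obtain ⟨f, hf, hpr, hfL⟩ := hardPr_SAT3b L hL
  have h1 : ∀ p : F3 × List Unit, Bounded3 p.1 → x ≤ nn p →
      (FU z x (bits (gI p)) = [true] ↔ SAT3 p.1) := by
    intro p hb hx
    by_contra h
    apply hcon (Encodable.encode (bits p))
    rw [str_encode]
    filter_upwards [Filter.eventually_gt_atTop (nn p)] with N hN
    unfold W1
    rw [decF_bits, bdB_iff, ← sat_iff hb]
    exact ⟨hb, hx, hN, by tauto⟩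
  have h2 : Poly (fun φ : F3 => gI (φ, List.replicate x ())) :=
    poly_gI.comp (NPC.Poly.pair NPC.Poly.id (NPC.Poly.const _))
  have h3 : PolyTime (fun y => bits (gI (f y, List.replicate x ()))) :=
    PC.toPolyTime_bits h2 f hf
  have h4 : PolyTime (FU z x) := polyTime_of_poly' (poly_FU z x)
  refine ⟨_, H642R2.TMSim.polyTime_comp h4 h3, fun y => ?_⟩
  rw [hfL y]
  refine (h1 (f y, List.replicate x ()) (hpr y).2.1 ?_).symm
  simp [nn]

theorem exists_W2 (hP : PNeNP) (x : ℕ) (z s : List Bool) :
    ∃ v : ℕ, ∀ᶠ N in Filter.atTop, W2 x z s (str v) N := by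
  by_contra hcon'
  have hcon : ∀ v : ℕ, ¬ _ := fun v hv => hcon' ⟨v, hv⟩
  obtain ⟨L, hL, hL'⟩ := hP
  apply hL'
  obtain ⟨f, hf, hpr, hfL⟩ := hardPr_SAT3b L hL
  have h1 : ∀ φ : F3, Bounded3 φ →
      (KSat (fin s) (decK (FU z x (bits φ))) ↔ SAT3 φ) := by
    intro φ hb
    by_contra h
    apply hcon (Encodable.encode (bits ((φ, []) : F3 × List Unit)))
    rw [str_encode]
    filter_upwards [Filter.eventually_gt_atTop (nsL (decK (FU z x (bits φ)))).sum] with N hN
    unfold W2
    rw [decF_bits, bdB_iff, ← sat_iff hb, nsB_iff, KS_iff _ _ (decK_length _)]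
    refine ⟨hb, fun n hn => ?_, by tauto⟩
    have := List.single_le_sum (l := nsL (decK (FU z x (bits φ)))) (by simp) n hn
    omega
  have h2 : Poly (fun y : List Bool => dK s (decK (FU z x y))) :=
    (poly_dK s).comp (poly_decK.comp (poly_FU z x))
  have h3 : PolyTime (fun y => bits (f y)) := PC.toPolyTime hf
  refine ⟨_, H642R2.TMSim.polyTime_comp (polyTime_of_poly h2) h3, fun y => ?_⟩
  rw [hfL y, ← h1 _ (hpr y).2.1, dK_iff]
  simp

/-- The search succeeds. -/
theorem exists_GG (hP : PNeNP) (x : ℕ) : ∃ N, GG x N := by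
  have h1 : ∀ᶠ N in Filter.atTop, ∀ j ∈ (List.range x).toFinset,
      ∃ v ∈ List.range N, W1 x (str j) (str v) N := by
    rw [Filter.eventually_all_finset]
    intro j _
    obtain ⟨v, hv⟩ := exists_W1 hP x (str j)
    filter_upwards [hv, Filter.eventually_gt_atTop v] with N h1 h2
    exact ⟨v, List.mem_range.2 h2, h1⟩
  have h2 : ∀ᶠ N in Filter.atTop, ∀ j ∈ (List.range x).toFinset, ∀ s ∈ (allL x).toFinset,
      ∃ v ∈ List.range N, W2 x (str j) s (str v) N := by
    rw [Filter.eventually_all_finset]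
    intro j _
    rw [Filter.eventually_all_finset]
    intro s _
    obtain ⟨v, hv⟩ := exists_W2 hP x (str j) s
    filter_upwards [hv, Filter.eventually_gt_atTop v] with N h1 h2
    exact ⟨v, List.mem_range.2 h2, h1⟩
  obtain ⟨N, h3, h4⟩ := (h1.and h2).exists
  refine ⟨N, fun j hj => h3 j (List.mem_toFinset.2 hj), fun j hj s hs =>
    h4 j (List.mem_toFinset.2 hj) s (List.mem_toFinset.2 hs)⟩

/-- The flags take the value `b` on arbitrarily late intervals on which the search for the left
end point succeeds. -/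
def Phases (s : ℕ → Bool) (b : Bool) : Prop :=
  ∀ k : ℕ, ∃ x N : ℕ, k ≤ x ∧ GG x N ∧ ∀ n, x ≤ n → n < N → s n = b

theorem not_inP {m : Mach} (hm : m.OK) (h : Phases m.flag true) :
    ¬ InPP (CSP (tau m) (bigR m)) := by
  intro hP
  obtain ⟨V, hV, hV'⟩ := hP.exists_test
  obtain ⟨z, k, hz⟩ := exists_FU hV
  obtain ⟨x, N, hx, hG, hs⟩ := h (max k (Encodable.encode z + 1))
  obtain ⟨v, _, h1, h2, h3, h4⟩ := hG.1 (Encodable.encode z) (List.mem_range.2 (by omega))
  rw [bdB_iff] at h1
  rw [str_encode, hz x _ (by omega) (bits_ne_nil _), ← hV', csp_gI hm h1,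
    hs _ h2 h3, ← sat_iff h1] at h4
  simp only [true_implies] at h4
  tauto

/-- Bounded 3-satisfiability. -/
def BS (φ : F3) : Prop := Bounded3 φ ∧ SAT3 φ

theorem inNPP_BS : InNPP BS := by
  have h1 : Poly (fun x : F3 × List Bool => bdB x.1 && chkS x.1 x.2) := by
    unfold bdB chkS
    fun_prop
  refine inNPP_of h1 (12 * Polynomial.X + 1) fun φ => ?_
  unfold BS
  simp only [Bool.and_eq_true, bdB_iff]
  constructor
  · rintro ⟨hb, hs⟩
    obtain ⟨c, hc, hc2⟩ := (sat_iff hb).1 hs
    rw [mem_allL] at hc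
    refine ⟨c, ?_, hb, hc2⟩
    have e1 := sz_listBool_le c
    have e2 := length_lt_sz φ
    simp only [Polynomial.eval_add, Polynomial.eval_mul, Polynomial.eval_X,
      Polynomial.eval_ofNat, Polynomial.eval_one]
    omega
  · rintro ⟨c, _, hb, hc⟩
    refine ⟨hb, ?_⟩
    unfold chkS at hc
    simp only [List.all_eq_true, Bool.or_eq_true, decide_eq_true_eq] at hc
    refine ⟨fun i => c.getD i false, fun cl hcl => ?_⟩
    rcases hc cl hcl with (h | h) | h
    · exact Or.inl h
    · exact Or.inr (Or.inl h)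
    · exact Or.inr (Or.inr h)

theorem not_hard {m : Mach} (hm : m.OK) (h : Phases m.flag false) :
    ¬ NPHardP (CSP (tau m) (bigR m)) := by
  intro hH
  obtain ⟨f, hf, hfL⟩ := hH _ inNPP_BS
  set g : List Bool → KI := fun y => (unbits Inst y).elim none (red m) with hg
  have hgp : Poly g := by
    have h1 := poly_red hm
    have h2 : Poly (unbits Inst) := poly_unbits
    rw [hg]
    fun_prop
  have h1 : PolyTime (fun y => bits (g (f y))) :=
    H642R2.TMSim.polyTime_comp (polyTime_bits hgp) hf
  obtain ⟨z, k, hz⟩ := exists_FU h1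
  obtain ⟨x, N, hx, hG, hs⟩ := h (max k (Encodable.encode z + 1))
  set s := (List.range x).map m.flag with hs'
  obtain ⟨v, _, h2, h3, h4⟩ := hG.2 (Encodable.encode z) (List.mem_range.2 (by omega)) s
    (mem_allL.2 (by simp [hs']))
  rw [bdB_iff] at h2
  rw [str_encode, hz x _ (by omega) (bits_ne_nil _)] at h3 h4
  rw [nsB_iff, decK_bits] at h3
  rw [KS_iff _ _ (decK_length _), decK_bits, ← sat_iff h2] at h4
  have h5 : KSat (fin s) (g (f (bits (decF (str v)).1))) ↔
      KSat m.flag (g (f (bits (decF (str v)).1))) := by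
    refine ksat_congr fun l hl c hc n hn => ?_
    have h6 := h3 n (by
      rw [hl]
      simp only [nsL, Option.elim_some, List.mem_flatMap]
      exact ⟨c, hc, hn⟩)
    by_cases hnx : n < x
    · unfold fin
      rw [List.getD_eq_getElem _ _ (by simpa [hs'] using hnx)]
      simp [hs']
    · rw [hs n (by omega) h6]
      unfold fin
      rw [List.getD_eq_default _ _ (by simp [hs']; omega)]
  have h7 : KSat m.flag (g (f (bits (decF (str v)).1))) ↔ SAT3 (decF (str v)).1 := by
    have h8 := hfL (bits (decF (str v)).1)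
    rw [bits_mem_lang] at h8
    have h9 : ∀ u : List Bool, u ∈ lang (CSP (tau m) (bigR m)) ↔ KSat m.flag (g u) := by
      intro u
      have e : u ∈ lang (CSP (tau m) (bigR m)) ↔
          ∃ I, unbits Inst u = some I ∧ CSP (tau m) (bigR m) I := mem_lang_iff
      rw [e]
      change _ ↔ KSat m.flag ((unbits Inst u).elim none (red m))
      cases unbits Inst u with
      | none => simp [KSat]
      | some I =>
        simp only [Option.elim_some, Option.some.injEq, exists_eq_left']
        exact csp_red hm I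
    rw [← h9, ← h8]
    exact ⟨fun h => h.2, fun h => ⟨h2, h⟩⟩
  rw [h5, h7] at h4
  tauto

end Pool.Agent.H593R3.FBC
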