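import Pool.Agent.H593R3.FBC.Hard
import Pool.Agent.H639R2.NTP.PB

/-!
# The search predicate is primitive recursive
-/

namespace Pool.Agent.H593R3.FBC

open Function Pool.Agent.NPC Pool.Agent.H660R2.NX
open Pool.Agent.H639R2.NTP (polyTime_primrec)
open Pool.Agent.H639R2.NTP.C5 (allL mem_allL primrec_allL primrec_pairBits primrec_replicate)

attribute [local irreducible] unpair

/-! ### Polynomial-time functions are primitive recursive -/

theorem prim_str {g : List Bool → List Bool} (hg : Poly g) : Primrec g :=
  polyTime_primrec (polyTime_of_poly' hg)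

theorem prim_bits {β : Type} [TEnc β] {g : List Bool → β} (hg : Poly g) :
    Primrec (fun x => bits (g x)) :=
  polyTime_primrec (polyTime_bits hg)

theorem prim_bool {g : List Bool → Bool} (hg : Poly g) : Primrec g := by
  have h1 : Primrec (fun x => [g x]) := polyTime_primrec (polyTime_of_poly hg)
  exact (Primrec.list_headI.comp h1).of_eq fun x => rfl

theorem prim_len {g : List Bool → ℕ} (hg : UPoly g) : Primrec g := by
  have h1 : Poly (fun x => List.replicate (g x) true) :=
    (NPC.Poly.map (F := fun _ _ => true) hg (NPC.Poly.const true)).congr fun x => by simp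
  exact (Primrec.list_length.comp (prim_str h1)).of_eq fun x => by simp

section

variable {α : Type} [Primcodable α]

/-- several strings as one -/
theorem prim_pair {a b : α → List Bool} (ha : Primrec a) (hb : Primrec b) :
    Primrec (fun x => pairBits (a x) (b x)) := primrec_pairBits.comp ha hb

end

/-! ### The ingredients -/

/-- The string number `j`. -/
def str (j : ℕ) : List Bool := (Encodable.decode (α := List Bool) j).getD []

theorem prim_strN : Primrec str :=
  Primrec.option_getD.comp Primrec.decode (Primrec.const [])

theorem str_encode (z : List Bool) : str (Encodable.encode z) = z := by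
  simp [str, Encodable.encodek]

/-- Decoding formulas. -/
def decF (w : List Bool) : F3 × List Unit := (unbits (F3 × List Unit) w).getD ([], [])

theorem decF_bits (p : F3 × List Unit) : decF (bits p) = p := by
  simp [decF, unbits_bits]

theorem poly_decF : Poly decF := by
  unfold decF
  have h : Poly (unbits (F3 × List Unit)) := poly_unbits
  fun_prop

/-- Decoding sets of clauses. -/
def decK (y : List Bool) : KI := (unbits KI y).getD none

theorem decK_bits (K : KI) : decK (bits K) = K := by
  simp [decK, unbits_bits]

theorem poly_decK : Poly decK := by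
  unfold decK
  have h : Poly (unbits KI) := poly_unbits
  fun_prop

/-- The universal function with a clock. -/
def UB (z x t : List Bool) : List Bool :=
  (unbits Code z).elim [] (fun e => (U e x t.length).getD [])

/-- The functions computable in polynomial time, with all codes and all exponents. -/
def FU (z : List Bool) (k : ℕ) (x : List Bool) : List Bool :=
  UB z x (List.replicate (x.length ^ k + k) true)

theorem poly_UB : Poly (fun y : List Bool => UB (unpair y).1 (unpair (unpair y).2).1
    (unpair (unpair y).2).2) := by
  have h0 : Poly (fun p : List Bool × List Bool × List Bool => UB p.1 p.2.1 p.2.2) := by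
    unfold UB
    have h1 : Poly (fun p : List Bool × List Bool × List Bool => unbits Code p.1) :=
      poly_unbits.comp (NPC.Poly.fst NPC.Poly.id)
    refine Poly.optElim h1 (by fun_prop) ?_
    refine Poly.optGetD ?_ (by fun_prop)
    refine (poly_U.comp (f := fun p : (List Bool × List Bool × List Bool) × Code =>
      (p.2, p.1.2.1, p.1.2.2.map (fun _ => ()))) (by fun_prop)).congr fun p => ?_
    simp
  exact h0.comp (f := fun y => ((unpair y).1, (unpair (unpair y).2).1, (unpair (unpair y).2).2))
    (by fun_prop)

theorem prim_FU {α : Type} [Primcodable α] {z x : α → List Bool} {k : α → ℕ} (hz : Primrec z)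
    (hk : Primrec k) (hx : Primrec x) : Primrec (fun a => FU (z a) (k a) (x a)) := by
  have h1 : Primrec (fun a => (x a).length ^ k a + k a) :=
    Primrec.nat_add.comp (Pool.Agent.H639R2.NTP.primrec_pow.comp (Primrec.list_length.comp hx) hk)
      hk
  have h2 := (prim_str poly_UB).comp (prim_pair hz (prim_pair hx (primrec_replicate.comp h1)))
  refine h2.of_eq fun a => ?_
  unfold FU
  rw [unpair_pairBits]
  simp only
  rw [unpair_pairBits]

/-- Does the assignment satisfy the formula? -/
def chkS (φ : F3) (c : List Bool) : Bool :=
  φ.all (fun cl => decide (c.getD cl.1.2 false = cl.1.1) ||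
    decide (c.getD cl.2.1.2 false = cl.2.1.1) || decide (c.getD cl.2.2.2 false = cl.2.2.1))

/-- The promise as a test. -/
def bdB (φ : F3) : Bool :=
  φ.all (fun c => decide (c.1.2 < 3 * φ.length) && decide (c.2.1.2 < 3 * φ.length) &&
    decide (c.2.2.2 < 3 * φ.length))

theorem bdB_iff (φ : F3) : bdB φ = true ↔ Bounded3 φ := by
  unfold bdB Bounded3
  simp only [List.all_eq_true, Bool.and_eq_true, decide_eq_true_eq, and_assoc]

theorem sat_iff {φ : F3} (hb : Bounded3 φ) :
    SAT3 φ ↔ ∃ c ∈ allL (3 * φ.length), chkS φ c = true := by
  unfold chkS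
  simp only [List.all_eq_true, Bool.or_eq_true, decide_eq_true_eq, mem_allL]
  constructor
  · rintro ⟨v, hv⟩
    have hw : ∀ i < 3 * φ.length, ((List.range (3 * φ.length)).map v).getD i false = v i := by
      intro i hi
      rw [List.getD_eq_getElem _ _ (by simpa using hi)]
      simp
    refine ⟨(List.range (3 * φ.length)).map v, by simp, fun cl hcl => ?_⟩
    obtain ⟨b1, b2, b3⟩ := hb cl hcl
    rw [hw _ b1, hw _ b2, hw _ b3]
    rcases hv cl hcl with h | h | h
    · exact Or.inl (Or.inl h)
    · exact Or.inl (Or.inr h)
    · exact Or.inr h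
  · rintro ⟨c, _, hc⟩
    refine ⟨fun i => c.getD i false, fun cl hcl => ?_⟩
    rcases hc cl hcl with (h | h) | h
    · exact Or.inl h
    · exact Or.inr (Or.inl h)
    · exact Or.inr (Or.inr h)

/-- The test for one component. -/
def chk2 (s c y t : List Bool) : Bool :=
  (decK y).elim false (fun l => (l[t.length]?).elim true (fun lc => chk1 s c lc))

theorem poly_chk2 : Poly (fun v : List Bool => chk2 (unpair v).1 (unpair (unpair v).2).1
    (unpair (unpair (unpair v).2).2).1 (unpair (unpair (unpair v).2).2).2) := by
  have h0 : Poly (fun p : List Bool × List Bool × List Bool × List Bool =>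
      chk2 p.1 p.2.1 p.2.2.1 p.2.2.2) := by
    unfold chk2
    have h1 := poly_decK
    have h2 : Poly (fun p : (((List Bool × List Bool × List Bool × List Bool) × List Loc) × Loc) =>
      chk1 p.1.1.1 p.1.1.2.1 p.2) := poly_chk1 (by fun_prop) (by fun_prop) (by fun_prop)
    fun_prop
  exact h0.comp (f := fun v => ((unpair v).1, (unpair (unpair v).2).1,
    (unpair (unpair (unpair v).2).2).1, (unpair (unpair (unpair v).2).2).2)) (by fun_prop)

/-- Deciding the problem about sets of clauses, in terms of strings. -/
def KS (s y : List Bool) : Prop := ∀ i ∈ List.range (y.length + 1), ∃ c ∈ allL s.length,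
  chk2 s c y (List.replicate i true) = true

theorem KS_iff (s y : List Bool) (hy : ∀ l, decK y = some l → l.length ≤ y.length) :
    KS s y ↔ KSat (fin s) (decK y) := by
  unfold KS KSat chk2
  cases hK : decK y with
  | none =>
    simp
    exact ⟨0, Nat.zero_le _⟩
  | some l =>
    simp only [Option.some.injEq, exists_eq_left', Option.elim_some, List.length_replicate,
      List.mem_range]
    constructor
    · intro h c hc
      obtain ⟨i, hi, rfl⟩ := List.mem_iff_getElem.1 hc
      have hl := hy l hK
      obtain ⟨w, hw, h2⟩ := h i (by omega)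
      rw [List.getElem?_eq_getElem hi] at h2
      exact locSat_of_chk1 h2
    · intro h i _
      by_cases hi : i < l.length
      · obtain ⟨w, hw, h2⟩ := (locSat_iff _ _).1 (h _ (List.getElem_mem hi))
        refine ⟨w, mem_allL.2 hw, ?_⟩
        rw [List.getElem?_eq_getElem hi]
        exact h2
      · refine ⟨[], mem_allL.2 (by simp), ?_⟩
        rw [List.getElem?_eq_none (by omega)]
        rfl

/-- All depths of end nodes are less than the length of `t`. -/
def nsB (y t : List Bool) : Bool :=
  (decK y).elim true (fun l => l.all (fun c => c.1.all (fun n => decide (n < t.length))))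

theorem poly_nsB : Poly (fun v : List Bool => nsB (unpair v).1 (unpair v).2) := by
  have h0 : Poly (fun p : List Bool × List Bool => nsB p.1 p.2) := by
    unfold nsB
    have h1 := poly_decK
    fun_prop
  exact h0.comp (f := fun v => ((unpair v).1, (unpair v).2)) (by fun_prop)

/-! ### The search predicate -/

/-- A formula on which the function number `z` fails to decide satisfiability. -/
def W1 (x : ℕ) (z w : List Bool) (N : ℕ) : Prop :=
  bdB (decF w).1 = true ∧ x ≤ nn (decF w) ∧ nn (decF w) < N ∧
    (FU z x (bits (gI (decF w))) = [true] ↔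
      ¬ ∃ c ∈ allL (3 * (decF w).1.length), chkS (decF w).1 c = true)

/-- A formula on which the function number `z` fails to be a reduction. -/
def W2 (x : ℕ) (z s w : List Bool) (N : ℕ) : Prop :=
  bdB (decF w).1 = true ∧ nsB (FU z x (bits (decF w).1)) (List.replicate N true) = true ∧
    (KS s (FU z x (bits (decF w).1)) ↔
      ¬ ∃ c ∈ allL (3 * (decF w).1.length), chkS (decF w).1 c = true)

/-- The search predicate. -/
def GG (x N : ℕ) : Prop :=
  (∀ j ∈ List.range x, ∃ v ∈ List.range N, W1 x (str j) (str v) N) ∧
  ∀ j ∈ List.range x, ∀ s ∈ allL x, ∃ v ∈ List.range N, W2 x (str j) s (str v) N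

theorem PrimrecPred.iff {α : Type} [Primcodable α] {p q : α → Prop} (hp : PrimrecPred p)
    (hq : PrimrecPred q) : PrimrecPred fun a => (p a ↔ q a) :=
  (((hp.and hq).or (hp.not.and hq.not))).of_eq fun a => by tauto

theorem prim_sat {α : Type} [Primcodable α] {w : α → List Bool} (hw : Primrec w) :
    PrimrecPred (fun a => ∃ c ∈ allL (3 * (decF (w a)).1.length),
      chkS (decF (w a)).1 c = true) := by
  have h1 : Primrec (fun v : List Bool => chkS (decF (unpair v).2).1 (unpair v).1) := by
    refine prim_bool ?_
    have h0 : Poly (fun p : List Bool × List Bool => chkS (decF p.2).1 p.1) := by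
      unfold chkS
      have := poly_decF
      fun_prop
    exact h0.comp (f := fun v => ((unpair v).1, (unpair v).2)) (by fun_prop)
  have h2 : PrimrecRel (fun (c : List Bool) (a : List Bool) => chkS (decF a).1 c = true) := by
    have h3 : Primrec (fun p : List Bool × List Bool => chkS (decF p.2).1 p.1) := by
      refine (h1.comp (prim_pair Primrec.fst Primrec.snd)).of_eq fun p => ?_
      rw [unpair_pairBits]
    exact PrimrecPred.of_eq (PrimrecRel.comp Primrec.eq h3 (Primrec.const true)) fun p => Iff.rfl
  have h4 : Primrec (fun v : List Bool => 3 * (decF v).1.length) := by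
    refine prim_len ?_
    have := poly_decF
    exact (UPoly.const 3).mul (UPoly.length (by fun_prop))
  exact (h2.exists_mem_list).comp (primrec_allL.comp (h4.comp hw)) hw

theorem prim_bd {α : Type} [Primcodable α] {w : α → List Bool} (hw : Primrec w) :
    PrimrecPred (fun a => bdB (decF (w a)).1 = true) := by
  have h1 : Primrec (fun v : List Bool => bdB (decF v).1) := by
    refine prim_bool ?_
    unfold bdB
    have := poly_decF
    fun_prop
  exact PrimrecRel.comp Primrec.eq (h1.comp hw) (Primrec.const true)

theorem prim_nn {α : Type} [Primcodable α] {w : α → List Bool} (hw : Primrec w) :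
    Primrec (fun a => nn (decF (w a))) := by
  have h1 : Primrec (fun v : List Bool => nn (decF v)) :=
    prim_len (UPoly.comp uPoly_nn poly_decF)
  exact h1.comp hw

theorem prim_KS {α : Type} [Primcodable α] {s y : α → List Bool} (hs : Primrec s)
    (hy : Primrec y) : PrimrecPred (fun a => KS (s a) (y a)) := by
  unfold KS
  have h1 : Primrec (fun p : List Bool × List Bool × List Bool × ℕ =>
      chk2 p.2.1 p.1 p.2.2.1 (List.replicate p.2.2.2 true)) := by
    have h2 := (prim_bool poly_chk2).comp (prim_pair
      (Primrec.fst.comp (Primrec.snd (α := List Bool) (β := List Bool × List Bool × ℕ)))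
      (prim_pair (Primrec.fst (α := List Bool) (β := List Bool × List Bool × ℕ))
      (prim_pair (Primrec.fst.comp (Primrec.snd.comp (Primrec.snd (α := List Bool)
        (β := List Bool × List Bool × ℕ))))
        (primrec_replicate.comp (Primrec.snd.comp (Primrec.snd.comp (Primrec.snd
          (α := List Bool) (β := List Bool × List Bool × ℕ))))))))
    refine h2.of_eq fun p => ?_
    simp only [unpair_pairBits]
  have h3 : PrimrecRel (fun (c : List Bool) (q : List Bool × List Bool × ℕ) =>
      chk2 q.1 c q.2.1 (List.replicate q.2.2 true) = true) :=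
    PrimrecRel.comp Primrec.eq h1 (Primrec.const true)
  have h4 : PrimrecRel (fun (i : ℕ) (q : List Bool × List Bool) => ∃ c ∈ allL q.1.length,
      chk2 q.1 c q.2 (List.replicate i true) = true) := by
    have h5 := (h3.exists_mem_list).comp
      (f := fun p : ℕ × List Bool × List Bool => allL p.2.1.length)
      (g := fun p : ℕ × List Bool × List Bool => (p.2.1, p.2.2, p.1))
      (primrec_allL.comp (Primrec.list_length.comp (Primrec.fst.comp Primrec.snd)))
      (Primrec.pair (Primrec.fst.comp Primrec.snd) (Primrec.pair (Primrec.snd.comp Primrec.snd)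
        Primrec.fst))
    exact h5
  exact (h4.forall_mem_list).comp (f := fun a => List.range ((y a).length + 1))
    (g := fun a => (s a, y a))
    (Primrec.list_range.comp (Primrec.succ.comp (Primrec.list_length.comp hy)))
    (Primrec.pair hs hy)

theorem prim_nsB {α : Type} [Primcodable α] {y : α → List Bool} {N : α → ℕ} (hy : Primrec y)
    (hN : Primrec N) :
    PrimrecPred (fun a => nsB (y a) (List.replicate (N a) true) = true) := by
  have h1 := (prim_bool poly_nsB).comp (prim_pair hy (primrec_replicate.comp hN))
  have h2 : Primrec (fun a => nsB (y a) (List.replicate (N a) true)) := by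
    refine h1.of_eq fun a => ?_
    rw [unpair_pairBits]
  exact PrimrecRel.comp Primrec.eq h2 (Primrec.const true)

theorem prim_W1 {α : Type} [Primcodable α] {x N : α → ℕ} {z w : α → List Bool} (hx : Primrec x)
    (hz : Primrec z) (hw : Primrec w) (hN : Primrec N) :
    PrimrecPred (fun a => W1 (x a) (z a) (w a) (N a)) := by
  unfold W1
  have h1 : Primrec (fun v : List Bool => bits (gI (decF v))) :=
    prim_bits (poly_gI.comp poly_decF)
  refine (prim_bd hw).and ((PrimrecRel.comp Primrec.nat_le hx (prim_nn hw)).and
    ((PrimrecRel.comp Primrec.nat_lt (prim_nn hw) hN).and (PrimrecPred.iff ?_ (prim_sat hw).not)))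
  exact PrimrecRel.comp Primrec.eq (prim_FU hz hx (h1.comp hw)) (Primrec.const [true])

theorem prim_W2 {α : Type} [Primcodable α] {x N : α → ℕ} {z s w : α → List Bool}
    (hx : Primrec x) (hz : Primrec z) (hs : Primrec s) (hw : Primrec w) (hN : Primrec N) :
    PrimrecPred (fun a => W2 (x a) (z a) (s a) (w a) (N a)) := by
  unfold W2
  have h1 : Primrec (fun v : List Bool => bits (decF v).1) :=
    prim_bits (NPC.Poly.fst poly_decF)
  have h2 := prim_FU hz hx (h1.comp hw)
  exact (prim_bd hw).and ((prim_nsB h2 hN).and (PrimrecPred.iff (prim_KS hs h2)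
    (prim_sat hw).not))

theorem prim_GG : PrimrecRel GG := by
  unfold GG
  refine PrimrecPred.and ?_ ?_
  · have h1 : PrimrecRel (fun (v : ℕ) (q : ℕ × ℕ × ℕ) =>
        W1 q.2.1 (str q.1) (str v) q.2.2) :=
      prim_W1 (Primrec.fst.comp (Primrec.snd.comp Primrec.snd))
        (prim_strN.comp (Primrec.fst.comp Primrec.snd)) (prim_strN.comp Primrec.fst)
        (Primrec.snd.comp (Primrec.snd.comp Primrec.snd))
    have h2 : PrimrecRel (fun (j : ℕ) (p : ℕ × ℕ) => ∃ v ∈ List.range p.2,
        W1 p.1 (str j) (str v) p.2) :=
      (h1.exists_mem_list).comp (f := fun q : ℕ × ℕ × ℕ => List.range q.2.2)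
        (g := fun q => q) (Primrec.list_range.comp (Primrec.snd.comp Primrec.snd)) Primrec.id
    exact (h2.forall_mem_list).comp (f := fun p : ℕ × ℕ => List.range p.1) (g := fun p => p)
      (Primrec.list_range.comp Primrec.fst) Primrec.id
  · have h1 : PrimrecRel (fun (v : ℕ) (q : List Bool × ℕ × ℕ × ℕ) =>
        W2 q.2.2.1 (str q.2.1) q.1 (str v) q.2.2.2) :=
      prim_W2 (Primrec.fst.comp (Primrec.snd.comp (Primrec.snd.comp Primrec.snd)))
        (prim_strN.comp (Primrec.fst.comp (Primrec.snd.comp Primrec.snd)))
        (Primrec.fst.comp Primrec.snd) (prim_strN.comp Primrec.fst)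
        (Primrec.snd.comp (Primrec.snd.comp (Primrec.snd.comp Primrec.snd)))
    have h2 : PrimrecRel (fun (s : List Bool) (q : ℕ × ℕ × ℕ) => ∃ v ∈ List.range q.2.2,
        W2 q.2.1 (str q.1) s (str v) q.2.2) :=
      (h1.exists_mem_list).comp (f := fun q : List Bool × ℕ × ℕ × ℕ => List.range q.2.2.2)
        (g := fun q => q)
        (Primrec.list_range.comp (Primrec.snd.comp (Primrec.snd.comp Primrec.snd))) Primrec.id
    have h3 : PrimrecRel (fun (j : ℕ) (p : ℕ × ℕ) => ∀ s ∈ allL p.1, ∃ v ∈ List.range p.2,
        W2 p.1 (str j) s (str v) p.2) :=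
      (h2.forall_mem_list).comp (f := fun q : ℕ × ℕ × ℕ => allL q.2.1)
        (g := fun q => q) (primrec_allL.comp (Primrec.fst.comp Primrec.snd)) Primrec.id
    exact (h3.forall_mem_list).comp (f := fun p : ℕ × ℕ => List.range p.1) (g := fun p => p)
      (Primrec.list_range.comp Primrec.fst) Primrec.id

end Pool.Agent.H593R3.FBC
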