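import Pool.Agent.H593R3.FBC.Lad
import Pool.Agent.Helper707.Flat

/-!
# The machine which searches
-/

namespace Pool.Agent.H593R3.FBC

open Function
open Pool.Agent.Helper707.Prog (Cmd Exec)
open Pool.Agent.Helper707.Flat (sx code len IsAt sim search prog up_g up_k length_code halting_iff)

/-- flat instructions -/
abbrev FIns : Type := Pool.Agent.Helper707.Flat.Ins

/-- bound for the numbers in an instruction -/
def bdI : FIns → ℕ
  | .inc r t => r + t
  | .dec r t t' => r + t + t'
  | .jmp t => t

/-- bound for the numbers in a program -/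
def bdP (P : List FIns) : ℕ := P.length + (P.map bdI).sum + 1

theorem bdI_lt {P : List FIns} {i : ℕ} {a : FIns} (h : P[i]? = some a) : bdI a < bdP P := by
  have h1 : bdI a ∈ P.map bdI := List.mem_map.2 ⟨a, List.mem_of_getElem? h, rfl⟩
  have h2 := List.single_le_sum (l := P.map bdI) (by simp) _ h1
  unfold bdP
  omega

/-- The machine: labels are pairs of a line of the program and a flag. -/
def mach (P : List FIns) : Mach where
  ins q := match P[q / 2]? with
    | some (.inc r t) => .inc r (2 * t + q % 2)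
    | some (.dec r t t') => .dec r (2 * t + q % 2) (2 * t' + q % 2)
    | some (.jmp t) => .jmp (2 * t + q % 2)
    | none => .rst (1 - q % 2)
  nQ := 2 * bdP P
  nK := bdP P
  act q := q % 2 == 1

theorem mach_ok (P : List FIns) : (mach P).OK := by
  refine ⟨by simp [mach, bdP], by simp [mach, bdP], fun q _ => ?_⟩
  simp only [mach]
  cases h : P[q / 2]? with
  | none =>
    simp only [InsOK]
    unfold bdP
    omega
  | some a =>
    have h1 := bdI_lt h
    cases a with
    | inc r t =>
      simp only [bdI] at h1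
      simp only [InsOK]
      omega
    | dec r t t' =>
      simp only [bdI] at h1
      simp only [InsOK]
      omega
    | jmp t =>
      simp only [bdI] at h1
      simp only [InsOK]
      omega

/-- one step of the flat program -/
abbrev fstep (P : List FIns) : ℕ × (ℕ → ℕ) → ℕ × (ℕ → ℕ) := Pool.Agent.Helper707.Flat.step P

theorem mach_step {P : List FIns} {c : ℕ × (ℕ → ℕ)} (h : P[c.1]? ≠ none) {b : ℕ} (hb : b < 2)
    (t : ℕ) : (mach P).step t (2 * c.1 + b, c.2) = (2 * (fstep P c).1 + b, (fstep P c).2) := by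
  have e1 : (2 * c.1 + b) / 2 = c.1 := by omega
  have e2 : (2 * c.1 + b) % 2 = b := by omega
  unfold Mach.step fstep Pool.Agent.Helper707.Flat.step
  simp only [mach, e1, e2]
  cases h' : P[c.1]? with
  | none => exact absurd h' h
  | some a =>
    cases a with
    | inc r t => rfl
    | dec r t t' =>
      simp only
      split_ifs <;> rfl
    | jmp t => rfl

theorem mach_reset {P : List FIns} {c : ℕ × (ℕ → ℕ)} (h : P[c.1]? = none) {b : ℕ} (hb : b < 2)
    (t : ℕ) : (mach P).step t (2 * c.1 + b, c.2) = (1 - b, sx t 0 0) := by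
  have e1 : (2 * c.1 + b) / 2 = c.1 := by omega
  have e2 : (2 * c.1 + b) % 2 = b := by omega
  unfold Mach.step
  simp only [mach, e1, e2, h]
  refine Prod.ext rfl ?_
  funext k
  simp only [sx]
  split_ifs <;> rfl

section

variable {f : List.Vector ℕ 2 → ℕ} {body : Cmd}

theorem heads (hb : ∀ x k : ℕ, Exec body (sx x k 0)
      (sx x (k + 1) (if f (k ::ᵥ x ::ᵥ List.Vector.nil) = 0 then 0 else 1))) (x N : ℕ)
    (hN : ∀ i < N, f (i ::ᵥ x ::ᵥ List.Vector.nil) ≠ 0) :
    ∃ t, N ≤ t ∧ (fstep (code (prog body) 0))^[t] (0, sx x 0 0) = (1, sx x N 1) := by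
  set P := code (prog body) 0 with hP
  have hat : IsAt P 0 (code (prog body) 0) := ⟨[], [], by simp [hP], rfl⟩
  have h1 : IsAt P 1 (code (.loop 3 body) 1) := by
    have := hat
    unfold prog at this
    exact IsAt.right (l := code (.inc 3) 0) this
  have g0 : P[1]? = some (.dec 3 (1 + 1) (1 + (len body + 2))) := h1.get
  have h2 : IsAt P (1 + 1) (code body (1 + 1) ++ [.jmp 1]) := IsAt.right (l := [_]) h1
  have g1 : P[1 + 1 + len body]? = some (.jmp 1) := by
    have := h2.right
    rw [length_code] at this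
    exact this.get
  have hhead : ∀ k ≤ N, ∃ t, k ≤ t ∧ (fstep P)^[t] (0, sx x 0 0) = (1, sx x k 1) := by
    intro k
    induction k with
    | zero =>
      intro _
      refine ⟨1, Nat.zero_le _, ?_⟩
      have g : P[0]? = some (.inc 3 1) := by
        have := hat.left
        exact this.get
      simp only [iterate_one, fstep, Pool.Agent.Helper707.Flat.step, g]
      rw [up_g]
      rfl
    | succ k ih =>
      intro hk
      obtain ⟨t, ht, e⟩ := ih (by omega)
      have hbk := hb x k
      rw [if_neg (hN k (by omega))] at hbk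
      obtain ⟨j, hj⟩ := sim hbk P (1 + 1) h2.left
      refine ⟨1 + (j + (1 + t)), by omega, ?_⟩
      have s1 : fstep P (1, sx x k 1) = (1 + 1, sx x k 0) := by
        simp only [fstep, Pool.Agent.Helper707.Flat.step, g0]
        rw [if_neg (by simp [sx]), show sx x k 1 3 - 1 = 0 by simp [sx], up_g]
      have s2 : fstep P (1 + 1 + len body, sx x (k + 1) 1) = (1, sx x (k + 1) 1) := by
        simp only [fstep, Pool.Agent.Helper707.Flat.step, g1]
      rw [iterate_add_apply, iterate_add_apply, iterate_add_apply, e, iterate_one, s1]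
      change fstep P ((Pool.Agent.Helper707.Flat.step P)^[j] _) = _
      rw [hj, s2]
  exact hhead N le_rfl

theorem phase (hb : ∀ x k : ℕ, Exec body (sx x k 0)
      (sx x (k + 1) (if f (k ::ᵥ x ::ᵥ List.Vector.nil) = 0 then 0 else 1)))
    (hf : ∀ x, ∃ k, f (k ::ᵥ x ::ᵥ List.Vector.nil) = 0) {T x b : ℕ} (hb2 : b < 2)
    (hT : (mach (code (prog body) 0)).run T = (b, sx x 0 0)) :
    ∃ H N, f (N ::ᵥ x ::ᵥ List.Vector.nil) = 0 ∧ N ≤ H ∧
      (∀ i ≤ H, (mach (code (prog body) 0)).flag (T + i) = (b == 1)) ∧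
      (mach (code (prog body) 0)).run (T + H + 1) = (1 - b, sx (T + H) 0 0) := by
  classical
  set P := code (prog body) 0 with hP
  obtain ⟨t₀, ht₀⟩ := (halting_iff hb x).1 (hf x)
  have hex : ∃ i, P[((fstep P)^[i] (0, sx x 0 0)).1]? = none := by
    refine ⟨t₀, ?_⟩
    rw [List.getElem?_eq_none_iff]
    change P.length ≤ ((Pool.Agent.Helper707.Flat.step P)^[t₀] (0, sx x 0 0)).1
    rw [ht₀, hP, length_code]
  have hrun : ∀ i ≤ Nat.find hex, (mach P).run (T + i) =
      (2 * ((fstep P)^[i] (0, sx x 0 0)).1 + b, ((fstep P)^[i] (0, sx x 0 0)).2) := by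
    intro i
    induction i with
    | zero =>
      intro _
      rw [add_zero, hT]
      simp
    | succ i ih =>
      intro hi
      have h1 := Nat.find_min hex (m := i) (by omega)
      rw [← add_assoc]
      change (mach P).step (T + i) ((mach P).run (T + i)) = _
      rw [ih (by omega), mach_step h1 hb2]
      simp only [iterate_succ_apply']
  refine ⟨Nat.find hex, Nat.find (hf x), Nat.find_spec (hf x), ?_, ?_, ?_⟩
  · obtain ⟨t, ht, e⟩ := heads hb x (Nat.find (hf x)) (fun i hi => Nat.find_min (hf x) hi)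
    by_contra hcon
    have h1 : Nat.find hex ≤ t := by omega
    obtain ⟨d, rfl⟩ : ∃ d, t = d + Nat.find hex := ⟨t - Nat.find hex, by omega⟩
    have h2 := Nat.find_spec hex
    rw [iterate_add_apply, iterate_fixed] at e
    · change (fstep P)^[Nat.find hex] (0, sx x 0 0) = _ at e
      rw [e] at h2
      have hlen : P.length = 1 + (len body + 2) := by
        rw [hP, length_code]
        simp [prog, len]
      rw [List.getElem?_eq_none_iff] at h2
      simp only at h2
      omega
    · change fstep P ((fstep P)^[Nat.find hex] (0, sx x 0 0)) = _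
      unfold fstep Pool.Agent.Helper707.Flat.step
      change (match P[((fstep P)^[Nat.find hex] (0, sx x 0 0)).1]? with
        | some (.inc r t) => _
        | some (.dec r t t') => _
        | some (.jmp t) => _
        | none => _) = _
      rw [h2]
  · intro i hi
    unfold Mach.flag Mach.lab
    rw [hrun i hi]
    simp only [mach]
    have : (2 * ((fstep P)^[i] (0, sx x 0 0)).1 + b) % 2 = b := by omega
    rw [this]
  · change (mach P).step (T + Nat.find hex) ((mach P).run (T + Nat.find hex)) = _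
    rw [hrun _ le_rfl]
    exact mach_reset (Nat.find_spec hex) hb2 _

theorem phases (hb : ∀ x k : ℕ, Exec body (sx x k 0)
      (sx x (k + 1) (if f (k ::ᵥ x ::ᵥ List.Vector.nil) = 0 then 0 else 1)))
    (hf : ∀ x, ∃ k, f (k ::ᵥ x ::ᵥ List.Vector.nil) = 0)
    (hG : ∀ x k, f (k ::ᵥ x ::ᵥ List.Vector.nil) = 0 → GG (x + 1) k) (c : Bool) :
    Phases (mach (code (prog body) 0)).flag c := by
  have key : ∀ j : ℕ, ∃ x, j ≤ x + 1 ∧
      (mach (code (prog body) 0)).run (x + 1) = ((j + 1) % 2, sx x 0 0) := by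
    intro j
    induction j with
    | zero =>
      obtain ⟨H, N, _, _, _, h⟩ := phase hb hf (T := 0) (x := 0) (b := 0) (by omega) (by
        refine Prod.ext rfl ?_
        funext k
        simp [Mach.run, sx])
      refine ⟨0 + H, by omega, h⟩
    | succ j ih =>
      obtain ⟨x, hx, hr⟩ := ih
      obtain ⟨H, N, _, _, _, h⟩ := phase hb hf (Nat.mod_lt _ (by omega)) hr
      refine ⟨x + 1 + H, by omega, ?_⟩
      rw [h]
      congr 1
      omega
  intro k
  obtain ⟨j, hj, hjc⟩ : ∃ j, k ≤ j ∧ ((j + 1) % 2 == 1) = c := by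
    cases c
    · refine ⟨2 * k + 1, by omega, ?_⟩
      have : (2 * k + 1 + 1) % 2 = 0 := by omega
      rw [this]; rfl
    · refine ⟨2 * k, by omega, ?_⟩
      have : (2 * k + 1) % 2 = 1 := by omega
      rw [this]; rfl
  obtain ⟨x, hx, hr⟩ := key j
  obtain ⟨H, N, h1, h2, h3, _⟩ := phase hb hf (Nat.mod_lt _ (by omega)) hr
  refine ⟨x + 1, N, by omega, hG x N h1, fun n hn hnN => ?_⟩
  have h4 := h3 (n - (x + 1)) (by omega)
  rw [show x + 1 + (n - (x + 1)) = n by omega] at h4
  rw [h4, hjc]

end

theorem exists_machine (hP : PNeNP) :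
    ∃ m : Mach, m.OK ∧ Phases m.flag true ∧ Phases m.flag false := by
  classical
  have h1 : Primrec₂ (fun k x : ℕ => if GG (x + 1) k then 0 else 1) := by
    have h2 : PrimrecPred (fun p : ℕ × ℕ => GG (p.2 + 1) p.1) :=
      prim_GG.comp (Primrec.succ.comp Primrec.snd) Primrec.fst
    exact Primrec.ite h2 (Primrec.const 0) (Primrec.const 1)
  set F : List.Vector ℕ 2 → ℕ := fun v => if GG (v.tail.head + 1) v.head then 0 else 1 with hF
  have h3 : Nat.Primrec' F := Nat.Primrec'.prim_iff₂.2 h1
  obtain ⟨body, hb⟩ := search h3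
  have hiff : ∀ x k : ℕ, F (k ::ᵥ x ::ᵥ List.Vector.nil) = 0 ↔ GG (x + 1) k := by
    intro x k
    simp [hF]
  have hex : ∀ x, ∃ k, F (k ::ᵥ x ::ᵥ List.Vector.nil) = 0 := by
    intro x
    obtain ⟨N, hN⟩ := exists_GG hP (x + 1)
    exact ⟨N, (hiff x N).2 hN⟩
  exact ⟨_, mach_ok (code (prog body) 0),
    phases hb hex (fun x k h => (hiff x k).1 h) true,
    phases hb hex (fun x k h => (hiff x k).1 h) false⟩

end Pool.Agent.H593R3.FBC
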