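import Pool.Agent.H593R3.FBC.RedDefs

/-!
# Correctness of the reduction
-/

namespace Pool.Agent.H593R3.FBC

open Function Pool.Agent.NPC

variable {m : Mach} {I : Inst} {f : ℕ}

theorem mem_iterate_next {i x : ℕ} :
    x ∈ (next I.2)^[i] [f] ↔ Dp (toMdl m (insR I)).S f i x := by
  induction i generalizing x with
  | zero => simp [Dp]
  | succ i ih =>
    rw [iterate_succ_apply', mem_next]
    constructor
    · rintro ⟨y, hy, h⟩
      exact ⟨y, ih.1 hy, h⟩
    · rintro ⟨y, hy, h⟩
      exact ⟨y, ih.2 hy, h⟩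

theorem mem_DL {i x : ℕ} :
    (i, x) ∈ DL I f ↔ i ≤ I.1.length ∧ Dp (toMdl m (insR I)).S f i x := by
  unfold DL
  simp only [List.mem_flatMap, List.mem_range, List.mem_map, Prod.mk.injEq]
  constructor
  · rintro ⟨j, hj, y, hy, rfl, rfl⟩
    refine ⟨by omega, ?_⟩
    unfold lev at hy
    rw [min_eq_left (by omega)] at hy
    exact mem_iterate_next.1 hy
  · rintro ⟨hi, h⟩
    refine ⟨i, by omega, x, ?_, rfl, rfl⟩
    unfold lev
    rw [min_eq_left hi]
    exact mem_iterate_next.2 h

theorem okI_iff : okI m I = true ↔ IsInst (tau m) I := by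
  unfold okI IsInst
  simp only [List.all_eq_true, Bool.and_eq_true, decide_eq_true_eq]

theorem mem_Fs (hI : IsInst (tau m) I) : f ∈ Fs I ↔ (toMdl m (insR I)).F f := by
  unfold Fs
  rw [List.mem_filter, List.mem_range, decide_eq_true_eq]
  constructor
  · exact fun h => h.2
  · intro h
    exact ⟨(hI _ h).2 f (by simp), h⟩

/-- the levels are bounded -/
theorem lev_lt (hI : IsInst (tau m) I) (hf : (toMdl m (insR I)).F f)
    (hu : ∀ i j x, i ≤ I.1.length → j ≤ I.1.length → Dp (toMdl m (insR I)).S f i x →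
      Dp (toMdl m (insR I)).S f j x → i = j) {i x : ℕ} (hx : Dp (toMdl m (insR I)).S f i x) :
    i < I.1.length := by
  by_contra hcon
  have hlt : ∀ i x, Dp (toMdl m (insR I)).S f i x → x < I.1.length := by
    intro i x hx
    cases i with
    | zero =>
      obtain rfl : x = f := hx
      exact (hI _ hf).2 x (by simp)
    | succ i =>
      obtain ⟨y, _, hy⟩ := hx
      exact (hI _ hy).2 x (by simp)
  choose y hy using fun j : Fin (I.1.length + 1) => hx.exists_le j.1 (by omega)
  have h1 := Fintype.exists_ne_map_eq_of_card_lt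
    (fun j : Fin (I.1.length + 1) => (⟨y j, hlt _ _ (hy j)⟩ : Fin I.1.length)) (by simp)
  obtain ⟨a, b, hab, h2⟩ := h1
  apply hab
  simp only [Fin.mk.injEq] at h2
  have hb := hy b
  rw [← h2] at hb
  exact Fin.ext (hu _ _ _ (by omega) (by omega) (hy a) hb)

theorem good_iff (hm : m.OK) (hI : IsInst (tau m) I) (hf : (toMdl m (insR I)).F f) :
    GoodAt m (toMdl m (insR I)) f ↔ chk m I f = true ∧ LocSat m.flag (loc I f) := by
  have hmem : ∀ i x, (i, x) ∈ DL I f ↔ i ≤ I.1.length ∧ Dp (toMdl m (insR I)).S f i x :=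
    fun i x => mem_DL
  have hchk : chk m I f = true ↔ ∀ i x, i ≤ I.1.length → Dp (toMdl m (insR I)).S f i x →
      ((5, [f, x]) ∉ I.2 ∧ (∀ q < m.nQ, (9 + q, [f, x]) ∈ I.2 → q = m.lab i)) ∧
      ∀ j y, j ≤ I.1.length → Dp (toMdl m (insR I)).S f j y → (((x = y → i = j) ∧
        ((7, [f, x, y]) ∈ I.2 → i = j)) ∧ ((8, [f, x, y]) ∈ I.2 → i < j)) ∧
        ∀ k < m.nK, (9 + m.nQ + k, [f, x, y]) ∈ I.2 → j = m.cnt i k := by
    unfold chk
    simp only [List.all_eq_true, Bool.and_eq_true, Bool.or_eq_true, Bool.not_eq_true',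
      decide_eq_true_eq, decide_eq_false_iff_not, List.mem_range, Prod.forall, hmem, and_imp]
    refine forall_congr' fun i => forall_congr' fun x => ?_
    refine forall_congr' fun hi => forall_congr' fun hx => ?_
    rw [cfg_eq hm hi]
    simp only [← imp_iff_not_or]
    refine and_congr Iff.rfl ?_
    refine forall_congr' fun j => forall_congr' fun y => ?_
    refine forall_congr' fun hj => forall_congr' fun hy => ?_
    refine and_congr Iff.rfl (forall_congr' fun k => forall_congr' fun hk => ?_)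
    rw [getD_range _ _ hk]
  have hloc : ∀ (hb : ∀ i x, Dp (toMdl m (insR I)).S f i x → i ≤ I.1.length),
      LocSat m.flag (loc I f) ↔ ∃ ξ : ℕ → Bool,
      (∀ i x, Dp (toMdl m (insR I)).S f i x → (toMdl m (insR I)).X f x → ξ i = true) ∧
      ∀ n z, Dp (toMdl m (insR I)).S f n z → (toMdl m (insR I)).L z → m.flag n = true →
      (∀ a b c x y w, Dp (toMdl m (insR I)).S f a x → Dp (toMdl m (insR I)).S f b y →
        Dp (toMdl m (insR I)).S f c w → a < n → b < n → c < n →
        (toMdl m (insR I)).P x y w → ξ a = true ∨ ξ b = true ∨ ξ c = true) ∧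
      ∀ a b x y, Dp (toMdl m (insR I)).S f a x → Dp (toMdl m (insR I)).S f b y →
        a < n → b < n → (toMdl m (insR I)).N x y → ¬ (ξ a = true ∧ ξ b = true) := by
    intro hb
    unfold LocSat ClOK
    refine exists_congr fun ξ => and_congr ?_ ?_
    · simp only [loc, List.mem_flatMap, Prod.exists, hmem]
      constructor
      · intro h i x h1 h2
        refine h i ⟨i, x, ⟨hb _ _ h1, h1⟩, ?_⟩
        rw [if_pos (show (6, [f, x]) ∈ I.2 from h2)]
        simp
      · rintro h i ⟨i', x, ⟨h0, h1⟩, h2⟩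
        split_ifs at h2 with h3
        · simp only [List.mem_singleton] at h2
          subst h2
          exact h i x h1 h3
        · simp at h2
    · simp only [loc, List.mem_flatMap, Prod.exists, hmem]
      constructor
      · intro h n z h1 h2 h3
        obtain ⟨h4, h5⟩ := h n ⟨n, z, ⟨hb _ _ h1, h1⟩, by
          rw [if_pos (show (1, [z]) ∈ I.2 from h2)]; simp⟩ h3
        constructor
        · intro a b c x y w ha hb' hc la lb lc hP
          refine h4 (a, b, c) ⟨a, x, ⟨hb _ _ ha, ha⟩, b, y, ⟨hb _ _ hb', hb'⟩, c, w,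
            ⟨hb _ _ hc, hc⟩, ?_⟩ la lb lc
          rw [if_pos (show (3, [x, y, w]) ∈ I.2 from hP)]
          simp
        · intro a b x y ha hb' la lb hN
          refine h5 (a, b) ⟨a, x, ⟨hb _ _ ha, ha⟩, b, y, ⟨hb _ _ hb', hb'⟩, ?_⟩ la lb
          rw [if_pos (show (4, [x, y]) ∈ I.2 from hN)]
          simp
      · rintro h n ⟨n', z, ⟨h0, h1⟩, h2⟩ h3
        split_ifs at h2 with h4
        · simp only [List.mem_singleton] at h2
          subst h2
          obtain ⟨h5, h6⟩ := h n z h1 h4 h3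
          constructor
          · rintro ⟨a, b, c⟩ ⟨a', x, ⟨_, ha⟩, b', y, ⟨_, hb'⟩, c', w, ⟨_, hc⟩, h7⟩ la lb lc
            split_ifs at h7 with h8
            · simp only [List.mem_singleton, Prod.mk.injEq] at h7
              obtain ⟨rfl, rfl, rfl⟩ := h7
              exact h5 _ _ _ _ _ _ ha hb' hc la lb lc h8
            · simp at h7
          · rintro ⟨a, b⟩ ⟨a', x, ⟨_, ha⟩, b', y, ⟨_, hb'⟩, h7⟩ la lb
            split_ifs at h7 with h8
            · simp only [List.mem_singleton, Prod.mk.injEq] at h7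
              obtain ⟨rfl, rfl⟩ := h7
              exact h6 _ _ _ _ ha hb' la lb h8
            · simp at h7
        · simp at h2
  rw [hchk]
  constructor
  · intro hg
    have hb : ∀ i x, Dp (toMdl m (insR I)).S f i x → i ≤ I.1.length := fun i x hx =>
      (lev_lt hI hf (fun i j x _ _ h1 h2 => hg.uniq i j x h1 h2) hx).le
    refine ⟨fun i x _ hx => ⟨⟨hg.u i x hx, fun q hq h => hg.q i x q hx ⟨hq, h⟩⟩,
      fun j y _ hy => ⟨⟨⟨?_, fun h => hg.z i j x y hx hy h⟩, fun h => hg.w i j x y hx hy h⟩,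
        fun k hk h => hg.h i j x y k hx hy ⟨hk, h⟩⟩⟩, (hloc hb).2 hg.x⟩
    rintro rfl
    exact hg.uniq i j x hx hy
  · rintro ⟨h1, h2⟩
    have hb : ∀ i x, Dp (toMdl m (insR I)).S f i x → i ≤ I.1.length := fun i x hx =>
      (lev_lt hI hf (fun i j x hi hj hx hx' => ((h1 i x hi hx).2 j x hj hx').1.1.1 rfl) hx).le
    exact ⟨fun i j x hx hy => ((h1 i x (hb _ _ hx) hx).2 j x (hb _ _ hy) hy).1.1.1 rfl,
      fun i x hx => (h1 i x (hb _ _ hx) hx).1.1,
      fun i j x y hx hy h => ((h1 i x (hb _ _ hx) hx).2 j y (hb _ _ hy) hy).1.1.2 h,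
      fun i j x y hx hy h => ((h1 i x (hb _ _ hx) hx).2 j y (hb _ _ hy) hy).1.2 h,
      fun i x q hx h => (h1 i x (hb _ _ hx) hx).1.2 q h.1 h.2,
      fun i j x u k hx hu h => ((h1 i x (hb _ _ hx) hx).2 j u (hb _ _ hu) hu).2 k h.1 h.2,
      (hloc hb).1 h2⟩

theorem csp_red (hm : m.OK) (I : Inst) : CSP (tau m) (bigR m) I ↔ KSat m.flag (red m I) := by
  rw [csp_iff hm]
  unfold KSat red
  by_cases hI : IsInst (tau m) I
  · simp only [hI, true_and, okI_iff.2 hI, Bool.true_and]
    by_cases hc : (Fs I).all (chk m I) = true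
    · simp only [hc, if_true, Option.some.injEq, exists_eq_left', List.mem_map,
        forall_exists_index, and_imp, forall_apply_eq_imp_iff₂]
      rw [List.all_eq_true] at hc
      constructor
      · intro h f hf
        exact ((good_iff hm hI ((mem_Fs hI).1 hf)).1 (h f ((mem_Fs hI).1 hf))).2
      · intro h f hf
        exact (good_iff hm hI hf).2 ⟨hc f ((mem_Fs hI).2 hf), h f ((mem_Fs hI).2 hf)⟩
    · simp only [hc]
      constructor
      · intro h
        exfalso
        apply hc
        rw [List.all_eq_true]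
        intro f hf
        exact ((good_iff hm hI ((mem_Fs hI).1 hf)).1 (h f ((mem_Fs hI).1 hf))).1
      · rintro ⟨l, h, _⟩
        simp at h
  · have : okI m I = false := by
      rw [← Bool.not_eq_true, okI_iff]; exact hI
    simp [hI, this]

end Pool.Agent.H593R3.FBC
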