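import Pool.Agent.H593R3.FBC.FB
import Pool.Agent.H671R2.PolyAuto
import Pool.Agent.H639R2.NTP.Cap

/-!
# The reduction of the constraint satisfaction problem to a problem about sets of clauses
-/

namespace Pool.Agent.H593R3.FBC

open Function Pool.Agent.NPC

/-- What is visible from a node: the depths of the end nodes, the depths of the nodes where the
truth value is prescribed, the positive clauses, and the negative clauses. -/
abbrev Loc : Type := List ℕ × List ℕ × List (ℕ × ℕ × ℕ) × List (ℕ × ℕ)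

/-- Instances of the problem about sets of clauses. -/
abbrev KI : Type := Option (List Loc)

/-- the clauses over the variables below `n` hold -/
def ClOK (ξ : ℕ → Bool) (c : Loc) (n : ℕ) : Prop :=
  (∀ p ∈ c.2.2.1, p.1 < n → p.2.1 < n → p.2.2 < n →
    ξ p.1 = true ∨ ξ p.2.1 = true ∨ ξ p.2.2 = true) ∧
  ∀ p ∈ c.2.2.2, p.1 < n → p.2 < n → ¬ (ξ p.1 = true ∧ ξ p.2 = true)

/-- the problem for one node -/
def LocSat (s : ℕ → Bool) (c : Loc) : Prop :=
  ∃ ξ : ℕ → Bool, (∀ i ∈ c.2.1, ξ i = true) ∧ ∀ n ∈ c.1, s n = true → ClOK ξ c n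

/-- the problem -/
def KSat (s : ℕ → Bool) (K : KI) : Prop := ∃ l, K = some l ∧ ∀ c ∈ l, LocSat s c

theorem poly_iterU {α σ : Type} [TEnc α] [TEnc σ] {n : α → ℕ} {s : α → σ} {F : α → σ → σ}
    (hn : UPoly n) (hs : Poly s) (hF : Poly (fun p : α × σ => F p.1 p.2)) (q : Polynomial ℕ)
    (hq : ∀ a, ∀ k ≤ n a, sz ((F a)^[k] (s a)) ≤ q.eval (sz a)) :
    Poly (fun a => (F a)^[n a] (s a)) := by
  refine (Poly.iterLen (l := fun a => List.replicate (n a) ()) hn hs hF q ?_).congr fun a => ?_
  · intro a k hk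
    rw [List.length_replicate] at hk
    exact hq a k hk
  · rw [List.length_replicate]

/-! ### Levels -/

/-- The successors of the nodes in `l`. -/
def next (fs : List (ℕ × List ℕ)) (l : List ℕ) : List ℕ :=
  fs.flatMap (fun p => if p.1 = 2 ∧ p.2.length = 2 ∧ p.2.getD 0 0 ∈ l then [p.2.getD 1 0] else [])

theorem mem_next {fs : List (ℕ × List ℕ)} {l : List ℕ} {y : ℕ} :
    y ∈ next fs l ↔ ∃ x ∈ l, (2, [x, y]) ∈ fs := by
  unfold next
  rw [List.mem_flatMap]
  constructor
  · rintro ⟨⟨i, t⟩, h1, h2⟩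
    split_ifs at h2 with h
    · obtain ⟨h3, h4, h5⟩ := h
      simp only at h3 h4 h5 h2
      match t, h4 with
      | [a, b], _ =>
        simp at h2 h5
        subst h2
        subst h3
        exact ⟨a, h5, h1⟩
    · simp at h2
  · rintro ⟨x, hx, h⟩
    refine ⟨_, h, ?_⟩
    simp [hx]

theorem sz_getD_le (l : List ℕ) (i : ℕ) : sz (l.getD i 0) ≤ sz l := by
  rw [List.getD_eq_getElem?_getD]
  cases h : l[i]? with
  | none => exact sz_pos l
  | some a => exact (sz_le_of_mem (List.mem_of_getElem? h)).le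

theorem sz_next (fs : List (ℕ × List ℕ)) (l : List ℕ) : sz (next fs l) ≤ sz fs := by
  induction fs with
  | nil => simp [next]
  | cons p fs ih =>
    have e : next (p :: fs) l = (if p.1 = 2 ∧ p.2.length = 2 ∧ p.2.getD 0 0 ∈ l then
      [p.2.getD 1 0] else []) ++ next fs l := rfl
    rw [e]
    have h1 := sz_getD_le p.2 1
    obtain ⟨i, t⟩ := p
    simp only [sz_list_cons, sz_pair] at *
    split_ifs
    · simp only [List.cons_append, List.nil_append, sz_list_cons]
      omega
    · simp only [List.nil_append]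
      omega

/-- The nodes of depth `i`. -/
def lev (I : Inst) (f i : ℕ) : List ℕ := (next I.2)^[min i I.1.length] [f]

theorem poly_next : Poly (fun p : List (ℕ × List ℕ) × List ℕ => next p.1 p.2) := by
  unfold next
  fun_prop

theorem poly_lev {α : Type} [TEnc α] {I : α → Inst} {f i : α → ℕ} (hI : Poly I) (hf : Poly f)
    (hi : Poly i) : Poly (fun a => lev (I a) (f a) (i a)) := by
  have h : Poly (fun p : Inst × ℕ × ℕ => lev p.1 p.2.1 p.2.2) := by
    unfold lev
    refine poly_iterU (F := fun (p : Inst × ℕ × ℕ) l => next p.1.2 l) ?_ (by fun_prop) ?_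
      (Polynomial.X + 2) ?_
    · exact Pool.Agent.H639R2.NTP.uPoly_min' (by fun_prop) (UPoly.length (by fun_prop))
    · exact poly_next.comp (f := fun p : (Inst × ℕ × ℕ) × List ℕ => (p.1.1.2, p.2)) (by fun_prop)
    · rintro ⟨I, f, i⟩ k _
      simp only [Polynomial.eval_add, Polynomial.eval_X, Polynomial.eval_ofNat, sz_pair]
      cases k with
      | zero => simp; omega
      | succ k =>
        rw [Function.iterate_succ_apply']
        have := sz_next I.2 ((fun l => next I.2 l)^[k] [f])
        obtain ⟨a, b⟩ := I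
        simp only [sz_pair] at *
        omega
  exact h.comp (f := fun a => (I a, f a, i a)) (by fun_prop)

attribute [fun_prop] poly_lev

/-- The pairs (depth, node) visible from `f`. -/
def DL (I : Inst) (f : ℕ) : List (ℕ × ℕ) :=
  (List.range (I.1.length + 1)).flatMap (fun i => (lev I f i).map (fun x => (i, x)))

theorem poly_DL {α : Type} [TEnc α] {I : α → Inst} {f : α → ℕ} (hI : Poly I) (hf : Poly f) :
    Poly (fun a => DL (I a) (f a)) := by
  have h : Poly (fun p : Inst × ℕ => DL p.1 p.2) := by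
    unfold DL
    have h1 : UPoly (fun p : Inst × ℕ => p.1.1.length + 1) :=
      (UPoly.length (by fun_prop)).add (UPoly.const 1)
    have h2 := h1.range
    fun_prop
  exact h.comp (f := fun a => (I a, f a)) (by fun_prop)

attribute [fun_prop] poly_DL

/-! ### The simulation of the machine -/

/-- Instructions as numbers. -/
def encI : Ins → ℕ × ℕ × ℕ × ℕ
  | .inc k q => (0, k, q, 0)
  | .dec k q q' => (1, k, q, q')
  | .jmp q => (2, 0, q, 0)
  | .rst q => (3, 0, q, 0)

/-- Changing an entry of a list. -/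
def setL (l : List ℕ) (k v : ℕ) : List ℕ := l.zipIdx.map (fun p => if p.2 = k then v else p.1)

/-- One step of the simulation. -/
def stp (tb : List (ℕ × ℕ × ℕ × ℕ)) (s : ℕ × ℕ × List ℕ) : ℕ × ℕ × List ℕ :=
  if (tb.getD s.2.1 (2, 0, 0, 0)).1 = 0 then
    (s.1 + 1, (tb.getD s.2.1 (2, 0, 0, 0)).2.2.1, setL s.2.2 (tb.getD s.2.1 (2, 0, 0, 0)).2.1
      (s.2.2.getD (tb.getD s.2.1 (2, 0, 0, 0)).2.1 0 + 1))
  else if (tb.getD s.2.1 (2, 0, 0, 0)).1 = 1 then
    (if s.2.2.getD (tb.getD s.2.1 (2, 0, 0, 0)).2.1 0 = 0 then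
      (s.1 + 1, (tb.getD s.2.1 (2, 0, 0, 0)).2.2.2, s.2.2)
    else (s.1 + 1, (tb.getD s.2.1 (2, 0, 0, 0)).2.2.1, setL s.2.2
      (tb.getD s.2.1 (2, 0, 0, 0)).2.1 (s.2.2.getD (tb.getD s.2.1 (2, 0, 0, 0)).2.1 0 - 1)))
  else if (tb.getD s.2.1 (2, 0, 0, 0)).1 = 2 then
    (s.1 + 1, (tb.getD s.2.1 (2, 0, 0, 0)).2.2.1, s.2.2)
  else (s.1 + 1, (tb.getD s.2.1 (2, 0, 0, 0)).2.2.1,
    s.2.2.zipIdx.map (fun p => if p.2 = 0 then s.1 else 0))

/-- The table of the instructions. -/
def tbl (m : Mach) : List (ℕ × ℕ × ℕ × ℕ) := (List.range m.nQ).map (fun q => encI (m.ins q))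

theorem zipIdx_range_map {β : Type} (n : ℕ) (g : ℕ → ℕ) (F : ℕ × ℕ → β) :
    (((List.range n).map g).zipIdx.map F) = (List.range n).map (fun j => F (g j, j)) := by
  apply List.ext_getElem
  · simp
  · intro i h1 h2
    simp

theorem setL_range (n : ℕ) (g : ℕ → ℕ) (k v : ℕ) :
    setL ((List.range n).map g) k v = (List.range n).map (update g k v) := by
  unfold setL
  rw [zipIdx_range_map]
  refine List.map_congr_left fun j _ => ?_
  simp only [update_apply]

theorem getD_range (n : ℕ) (g : ℕ → ℕ) {k : ℕ} (hk : k < n) :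
    ((List.range n).map g).getD k 0 = g k := by
  rw [List.getD_eq_getElem _ _ (by simpa using hk)]
  simp

theorem stp_iterate {m : Mach} (hm : m.OK) (t : ℕ) :
    (stp (tbl m))^[t] (0, 0, List.replicate m.nK 0) =
      (t, m.lab t, (List.range m.nK).map (m.cnt t)) := by
  induction t with
  | zero =>
    simp only [iterate_zero, id_eq, Prod.mk.injEq]
    refine ⟨trivial, rfl, ?_⟩
    apply List.ext_getElem
    · simp
    · intro i h1 h2
      simp [Mach.cnt, Mach.run]
  | succ t ih =>
    rw [iterate_succ_apply', ih]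
    have hq := m.lab_lt hm t
    have hok := hm.ins _ hq
    have hg : (tbl m).getD (m.lab t) (2, 0, 0, 0) = encI (m.ins (m.lab t)) := by
      unfold tbl
      rw [List.getD_eq_getElem _ _ (by simpa using hq)]
      simp
    unfold stp
    simp only [hg]
    have e1 : m.lab (t + 1) = (m.step t (m.run t)).1 := rfl
    have e2 : m.cnt (t + 1) = (m.step t (m.run t)).2 := rfl
    rw [e1, e2]
    unfold Mach.step
    have e3 : (m.run t).1 = m.lab t := rfl
    have e4 : (m.run t).2 = m.cnt t := rfl
    rw [e3, e4]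
    cases hi : m.ins (m.lab t) with
    | inc k q =>
      rw [hi] at hok
      simp only [encI, if_true, setL_range, getD_range _ _ hok.1]
    | dec k q q' =>
      rw [hi] at hok
      simp only [encI, setL_range, getD_range _ _ hok.1]
      by_cases h0 : m.cnt t k = 0
      · simp [h0]
      · simp [h0]
    | jmp q => simp [encI]
    | rst q =>
      simp only [encI]
      rw [zipIdx_range_map]
      simp

/-- The configuration at time `i`. -/
def cfg (m : Mach) (I : Inst) (i : ℕ) : ℕ × ℕ × List ℕ :=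
  (stp (tbl m))^[min i I.1.length] (0, 0, List.replicate m.nK 0)

theorem cfg_eq {m : Mach} (hm : m.OK) {I : Inst} {i : ℕ} (hi : i ≤ I.1.length) :
    cfg m I i = (i, m.lab i, (List.range m.nK).map (m.cnt i)) := by
  unfold cfg
  rw [min_eq_left hi, stp_iterate hm]

theorem poly_stp (tb : List (ℕ × ℕ × ℕ × ℕ)) : Poly (stp tb) := by
  unfold stp setL
  fun_prop

theorem sz_nat_le' (n : ℕ) : sz n ≤ 4 * n + 1 := by
  have h1 := sz_nat_le n
  have h2 : n.size ≤ n := Nat.size_le.2 Nat.lt_two_pow_self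
  omega

theorem poly_cfg {m : Mach} (hm : m.OK) {α : Type} [TEnc α] {I : α → Inst} {i : α → ℕ}
    (hI : Poly I) (hi : Poly i) : Poly (fun a => cfg m (I a) (i a)) := by
  have h : Poly (fun p : Inst × ℕ => cfg m p.1 p.2) := by
    unfold cfg
    refine poly_iterU (F := fun (p : Inst × ℕ) s => stp (tbl m) s) ?_ (by fun_prop) ?_
      ((4 * Polynomial.X + 1) + (Polynomial.C (4 * m.nQ + 1) + (Polynomial.C m.nK *
        (4 * Polynomial.X + 1 + 1) + 1) + 1) + 1) ?_
    · exact Pool.Agent.H639R2.NTP.uPoly_min' (by fun_prop) (UPoly.length (by fun_prop))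
    · exact (poly_stp (tbl m)).comp (f := fun p : (Inst × ℕ) × ℕ × ℕ × List ℕ => p.2)
        (by fun_prop)
    · rintro ⟨I, i⟩ k hk
      simp only at hk
      have hk2 : k ≤ sz ((I, i) : Inst × ℕ) := by
        obtain ⟨a, b⟩ := I
        have := length_lt_sz a
        simp only [sz_pair]
        simp only at hk
        omega
      rw [stp_iterate hm]
      have e1 := sz_nat_le' k
      have e2 := sz_nat_le' (m.lab k)
      have e3 := m.lab_lt hm k
      have e4 := sz_le_length_mul ((List.range m.nK).map (m.cnt k)) (4 * k + 1) (by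
        intro a ha
        obtain ⟨j, _, rfl⟩ := List.mem_map.1 ha
        have := sz_nat_le' (m.cnt k j)
        have := m.cnt_le k j
        omega)
      rw [List.length_map, List.length_range] at e4
      simp only [sz_pair, Polynomial.eval_add, Polynomial.eval_mul, Polynomial.eval_X,
        Polynomial.eval_ofNat, Polynomial.eval_C, Polynomial.eval_one] at *
      have e5 : m.nK * (4 * k + 1 + 1) ≤ m.nK * (4 * (sz I + sz i + 1) + 1 + 1) :=
        Nat.mul_le_mul_left _ (by omega)
      omega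
  exact h.comp (f := fun a => (I a, i a)) (by fun_prop)

/-! ### The reduction -/

/-- The test for the node `f`. -/
def chk (m : Mach) (I : Inst) (f : ℕ) : Bool :=
  (DL I f).all (fun p => (!decide ((5, [f, p.2]) ∈ I.2)) &&
    (List.range m.nQ).all (fun q => !decide ((9 + q, [f, p.2]) ∈ I.2) ||
      decide (q = (cfg m I p.1).2.1)) &&
    (DL I f).all (fun p' => (!decide (p.2 = p'.2) || decide (p.1 = p'.1)) &&
      (!decide ((7, [f, p.2, p'.2]) ∈ I.2) || decide (p.1 = p'.1)) &&
      (!decide ((8, [f, p.2, p'.2]) ∈ I.2) || decide (p.1 < p'.1)) &&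
      (List.range m.nK).all (fun k => !decide ((9 + m.nQ + k, [f, p.2, p'.2]) ∈ I.2) ||
        decide (p'.1 = (cfg m I p.1).2.2.getD k 0))))

/-- The clauses for the node `f`. -/
def loc (I : Inst) (f : ℕ) : Loc :=
  ((DL I f).flatMap (fun p => if (1, [p.2]) ∈ I.2 then [p.1] else []),
    (DL I f).flatMap (fun p => if (6, [f, p.2]) ∈ I.2 then [p.1] else []),
    (DL I f).flatMap (fun p => (DL I f).flatMap (fun p' => (DL I f).flatMap (fun p'' =>
      if (3, [p.2, p'.2, p''.2]) ∈ I.2 then [(p.1, p'.1, p''.1)] else []))),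
    (DL I f).flatMap (fun p => (DL I f).flatMap (fun p' =>
      if (4, [p.2, p'.2]) ∈ I.2 then [(p.1, p'.1)] else [])))

/-- The first nodes. -/
def Fs (I : Inst) : List ℕ :=
  (List.range I.1.length).filter (fun f => decide ((0, [f]) ∈ I.2))

/-- Is the instance well formed? -/
def okI (m : Mach) (I : Inst) : Bool :=
  I.2.all (fun p => decide ((tau m)[p.1]? = some p.2.length) &&
    p.2.all (fun a => decide (a < I.1.length)))

/-- The reduction. -/
def red (m : Mach) (I : Inst) : KI :=
  if okI m I && (Fs I).all (chk m I) then some ((Fs I).map (loc I)) else none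

theorem poly_chk {m : Mach} (hm : m.OK) : Poly (fun p : Inst × ℕ => chk m p.1 p.2) := by
  have h1 : Poly (fun p : ((Inst × ℕ) × (ℕ × ℕ)) × ℕ => cfg m p.1.1.1 p.1.2.1) :=
    poly_cfg hm (by fun_prop) (by fun_prop)
  have h2 : Poly (fun p : (((Inst × ℕ) × (ℕ × ℕ)) × (ℕ × ℕ)) × ℕ => cfg m p.1.1.1.1 p.1.1.2.1) :=
    poly_cfg hm (by fun_prop) (by fun_prop)
  unfold chk
  fun_prop

theorem poly_loc : Poly (fun p : Inst × ℕ => loc p.1 p.2) := by
  unfold loc
  fun_prop

theorem poly_Fs : Poly Fs := by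
  unfold Fs
  have h2 : Poly (fun p : Inst => List.range p.1.length) := (UPoly.length (by fun_prop)).range
  fun_prop

theorem poly_okI (m : Mach) : Poly (okI m) := by
  unfold okI
  fun_prop

theorem poly_red {m : Mach} (hm : m.OK) : Poly (red m) := by
  unfold red
  have h1 := poly_okI m
  have h2 : Poly (fun I : Inst => (Fs I).all (chk m I)) :=
    Poly.all poly_Fs (poly_chk hm)
  have h3 : Poly (fun I : Inst => (Fs I).map (loc I)) :=
    NPC.Poly.map poly_Fs poly_loc
  fun_prop

end Pool.Agent.H593R3.FBC
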