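import Pool.Agent.H593R3.FBC.Defs

/-!
# Machines, and the universal theory attached to a machine
-/

namespace Pool.Agent.H593R3.FBC

open Function

/-- Instructions of a counter machine. -/
inductive Ins
  /-- increase counter `k`, go to `q` -/
  | inc (k q : ℕ)
  /-- if counter `k` is zero go to `q'`, otherwise decrease it and go to `q` -/
  | dec (k q q' : ℕ)
  /-- go to `q` -/
  | jmp (q : ℕ)
  /-- store the time in counter `0`, set all other counters to zero, and go to `q` -/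
  | rst (q : ℕ)

/-- A counter machine, with a set of labels called active. -/
structure Mach where
  /-- the instructions -/
  ins : ℕ → Ins
  /-- the number of labels -/
  nQ : ℕ
  /-- the number of counters -/
  nK : ℕ
  /-- the active labels -/
  act : ℕ → Bool

/-- all targets are labels and all registers are counters -/
def InsOK (nQ nK : ℕ) : Ins → Prop
  | .inc k q => k < nK ∧ q < nQ
  | .dec k q q' => k < nK ∧ q < nQ ∧ q' < nQ
  | .jmp q => q < nQ
  | .rst q => q < nQ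

/-- the machine is well formed -/
structure Mach.OK (m : Mach) : Prop where
  hQ : 0 < m.nQ
  hK : 0 < m.nK
  ins : ∀ q < m.nQ, InsOK m.nQ m.nK (m.ins q)

/-- One step at time `t`. -/
def Mach.step (m : Mach) (t : ℕ) (c : ℕ × (ℕ → ℕ)) : ℕ × (ℕ → ℕ) :=
  match m.ins c.1 with
  | .inc k q => (q, update c.2 k (c.2 k + 1))
  | .dec k q q' => if c.2 k = 0 then (q', c.2) else (q, update c.2 k (c.2 k - 1))
  | .jmp q => (q, c.2)
  | .rst q => (q, fun k => if k = 0 then t else 0)

/-- The configuration at time `t`. -/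
def Mach.run (m : Mach) : ℕ → ℕ × (ℕ → ℕ)
  | 0 => (0, fun _ => 0)
  | t + 1 => m.step t (m.run t)

/-- the label at time `t` -/
def Mach.lab (m : Mach) (t : ℕ) : ℕ := (m.run t).1

/-- the counter `k` at time `t` -/
def Mach.cnt (m : Mach) (t k : ℕ) : ℕ := (m.run t).2 k

/-- is the machine on at time `t`? -/
def Mach.flag (m : Mach) (t : ℕ) : Bool := m.act (m.lab t)

theorem Mach.lab_lt {m : Mach} (hm : m.OK) (t : ℕ) : m.lab t < m.nQ := by
  induction t with
  | zero => exact hm.hQ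
  | succ t ih =>
    have h := hm.ins _ ih
    unfold Mach.lab at ih h ⊢
    simp only [Mach.run, Mach.step]
    cases hi : m.ins (m.run t).1 with
    | inc k q => rw [hi] at h; exact h.2
    | dec k q q' =>
      rw [hi] at h
      simp only
      split_ifs
      · exact h.2.2
      · exact h.2.1
    | jmp q => rw [hi] at h; exact h
    | rst q => rw [hi] at h; exact h

theorem Mach.cnt_le (m : Mach) (t k : ℕ) : m.cnt t k ≤ t := by
  induction t generalizing k with
  | zero => simp [Mach.cnt, Mach.run]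
  | succ t ih =>
    have h1 := ih k
    unfold Mach.cnt at ih h1 ⊢
    simp only [Mach.run, Mach.step]
    cases hi : m.ins (m.run t).1 with
    | inc k' q =>
      simp only [update_apply]
      split_ifs with h
      · subst h; omega
      · omega
    | dec k' q q' =>
      simp only
      split_ifs with h
      · simp only; omega
      · simp only [update_apply]
        split_ifs with h'
        · subst h'; omega
        · omega
    | jmp q => simp only; omega
    | rst q =>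
      simp only
      split_ifs <;> omega

/-- The relations of a structure for the theory, with names. -/
@[ext] structure Mdl (A : Type) where
  F : A → Prop
  L : A → Prop
  S : A → A → Prop
  P : A → A → A → Prop
  N : A → A → Prop
  U : A → A → Prop
  X : A → A → Prop
  Z : A → A → A → Prop
  W : A → A → A → Prop
  Q : ℕ → A → A → Prop
  H : ℕ → A → A → A → Prop

/-- `x` is visible from `f` -/
def Mdl.V {A : Type} (M : Mdl A) (f x : A) : Prop := M.F f ∧ ¬ M.U f x

/-- The universal theory attached to the machine `m`. -/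
structure IsModel (m : Mach) {A : Type} (M : Mdl A) : Prop where
  uf : ∀ f, M.F f → ¬ M.U f f
  us : ∀ f x y, M.V f x → M.S x y → ¬ M.U f y
  z0 : ∀ f, M.F f → M.Z f f f
  zs : ∀ f x y x' y', M.V f x → M.V f y → M.Z f x y → M.S x x' → M.S y y' → M.Z f x' y'
  zw : ∀ f x x' y, M.V f x → M.V f x' → M.Z f x x' → M.S x' y → M.W f x y
  ws : ∀ f x y y', M.V f x → M.V f y → M.W f x y → M.S y y' → M.W f x y'
  c1 : ∀ f x y, M.V f x → M.V f y → M.Z f x y → ¬ M.W f x y
  c2 : ∀ f x y, M.V f x → M.V f y → M.Z f x y → ¬ M.W f y x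
  c3 : ∀ f x y, M.V f x → M.V f y → M.W f x y → ¬ M.W f y x
  q0 : ∀ f, M.F f → M.Q 0 f f
  h0 : ∀ f, ∀ k < m.nK, M.F f → M.H k f f f
  qq : ∀ f x q q', M.V f x → M.Q q f x → M.Q q' f x → q = q'
  hh : ∀ f x u u' k, M.V f x → M.V f u → M.V f u' → M.H k f x u → M.H k f x u' → ¬ M.W f u u'
  hz : ∀ f x u u' k, M.V f x → M.V f u → M.V f u' → M.H k f x u → M.Z f u u' → M.H k f x u'
  inc1 : ∀ f x y q k q', m.ins q = .inc k q' → M.V f x → M.Q q f x → M.S x y → M.Q q' f y
  inc2 : ∀ f x y u v q k q', m.ins q = .inc k q' → M.V f x → M.V f u → M.Q q f x → M.S x y →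
    M.H k f x u → M.S u v → M.H k f y v
  inc3 : ∀ f x y u q k q' k', m.ins q = .inc k q' → k' ≠ k → M.V f x → M.V f u → M.Q q f x →
    M.S x y → M.H k' f x u → M.H k' f y u
  dec1 : ∀ f x y q k q' q'', m.ins q = .dec k q' q'' → M.V f x → M.Q q f x → M.S x y →
    M.H k f x f → M.Q q'' f y ∧ M.H k f y f
  dec2 : ∀ f x y u v q k q' q'', m.ins q = .dec k q' q'' → M.V f x → M.V f u → M.V f v →
    M.Q q f x → M.S x y → M.H k f x u → M.S v u → M.Q q' f y ∧ M.H k f y v
  dec3 : ∀ f x y u q k q' q'' k', m.ins q = .dec k q' q'' → k' ≠ k → M.V f x → M.V f u →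
    M.Q q f x → M.S x y → M.H k' f x u → M.H k' f y u
  jmp1 : ∀ f x y q q', m.ins q = .jmp q' → M.V f x → M.Q q f x → M.S x y → M.Q q' f y
  jmp2 : ∀ f x y u q q' k, m.ins q = .jmp q' → M.V f x → M.V f u → M.Q q f x → M.S x y →
    M.H k f x u → M.H k f y u
  rst1 : ∀ f x y q q', m.ins q = .rst q' → M.V f x → M.Q q f x → M.S x y → M.Q q' f y
  rst2 : ∀ f x y q q', m.ins q = .rst q' → M.V f x → M.Q q f x → M.S x y → M.H 0 f y x
  rst3 : ∀ f x y q q', ∀ k < m.nK, m.ins q = .rst q' → k ≠ 0 → M.V f x → M.Q q f x →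
    M.S x y → M.H k f y f
  xz : ∀ f x y, M.V f x → M.V f y → M.Z f x y → M.X f x → M.X f y
  pp : ∀ f z x y w q, M.V f z → M.L z → m.act q = true → M.Q q f z → M.V f x → M.V f y →
    M.V f w → M.W f x z → M.W f y z → M.W f w z → M.P x y w → M.X f x ∨ M.X f y ∨ M.X f w
  nn : ∀ f z x y q, M.V f z → M.L z → m.act q = true → M.Q q f z → M.V f x → M.V f y →
    M.W f x z → M.W f y z → M.N x y → ¬ (M.X f x ∧ M.X f y)

/-- The nodes that can be reached from `f` in exactly `i` steps. -/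
def Dp {A : Type} (S : A → A → Prop) (f : A) : ℕ → A → Prop
  | 0, x => x = f
  | i + 1, y => ∃ x, Dp S f i x ∧ S x y

theorem Dp.mono {A : Type} {S S' : A → A → Prop} (h : ∀ x y, S x y → S' x y) {f : A} {i : ℕ}
    {x : A} (hx : Dp S f i x) : Dp S' f i x := by
  induction i generalizing x with
  | zero => exact hx
  | succ i ih =>
    obtain ⟨y, hy, hs⟩ := hx
    exact ⟨y, ih hy, h _ _ hs⟩

theorem Dp.succ {A : Type} {S : A → A → Prop} {f : A} {i : ℕ} {x y : A} (hx : Dp S f i x)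
    (h : S x y) : Dp S f (i + 1) y := ⟨x, hx, h⟩

theorem Dp.exists_le {A : Type} {S : A → A → Prop} {f : A} {i : ℕ} {x : A} (hx : Dp S f i x) :
    ∀ j ≤ i, ∃ y, Dp S f j y := by
  induction i generalizing x with
  | zero =>
    intro j hj
    obtain rfl : j = 0 := by omega
    exact ⟨x, hx⟩
  | succ i ih =>
    intro j hj
    rcases Nat.lt_or_ge i j with h | h
    · obtain rfl : j = i + 1 := by omega
      exact ⟨x, hx⟩
    · obtain ⟨y, hy, _⟩ := hx
      exact ih hy j h

section Local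

variable {m : Mach} {A : Type} {M : Mdl A} {f : A}

theorem IsModel.vis (h : IsModel m M) (hf : M.F f) {i : ℕ} {x : A} (hx : Dp M.S f i x) :
    M.V f x := by
  induction i generalizing x with
  | zero =>
    obtain rfl : x = f := hx
    exact ⟨hf, h.uf _ hf⟩
  | succ i ih =>
    obtain ⟨y, hy, hs⟩ := hx
    exact ⟨hf, h.us _ _ _ (ih hy) hs⟩

theorem IsModel.zz (h : IsModel m M) (hf : M.F f) {i : ℕ} {x y : A} (hx : Dp M.S f i x)
    (hy : Dp M.S f i y) : M.Z f x y := by
  induction i generalizing x y with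
  | zero =>
    obtain rfl : x = f := hx
    obtain rfl : y = x := hy
    exact h.z0 _ hf
  | succ i ih =>
    obtain ⟨x', hx', hs⟩ := hx
    obtain ⟨y', hy', hs'⟩ := hy
    exact h.zs _ _ _ _ _ (h.vis hf hx') (h.vis hf hy') (ih hx' hy') hs hs'

theorem IsModel.ww (h : IsModel m M) (hf : M.F f) {i j : ℕ} (hij : i < j) {x y : A}
    (hx : Dp M.S f i x) (hy : Dp M.S f j y) : M.W f x y := by
  induction j, hij using Nat.le_induction generalizing y with
  | base =>
    obtain ⟨x', hx', hs⟩ := hy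
    exact h.zw _ _ _ _ (h.vis hf hx) (h.vis hf hx') (h.zz hf hx hx') hs
  | succ j hj ih =>
    obtain ⟨y', hy', hs⟩ := hy
    exact h.ws _ _ _ _ (h.vis hf hx) (h.vis hf hy') (ih hy') hs

theorem IsModel.of_z (h : IsModel m M) (hf : M.F f) {i j : ℕ} {x y : A}
    (hx : Dp M.S f i x) (hy : Dp M.S f j y) (hz : M.Z f x y) : i = j := by
  rcases Nat.lt_trichotomy i j with h1 | h1 | h1
  · exact absurd (h.ww hf h1 hx hy) (h.c1 _ _ _ (h.vis hf hx) (h.vis hf hy) hz)
  · exact h1
  · exact absurd (h.ww hf h1 hy hx) (h.c2 _ _ _ (h.vis hf hx) (h.vis hf hy) hz)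

theorem IsModel.uniq (h : IsModel m M) (hf : M.F f) {i j : ℕ} {x : A}
    (hx : Dp M.S f i x) (hy : Dp M.S f j x) : i = j :=
  h.of_z hf hx hy (h.zz hf hx hx)

theorem IsModel.of_w (h : IsModel m M) (hf : M.F f) {i j : ℕ} {x y : A}
    (hx : Dp M.S f i x) (hy : Dp M.S f j y) (hw : M.W f x y) : i < j := by
  rcases Nat.lt_trichotomy i j with h1 | h1 | h1
  · exact h1
  · subst h1
    exact absurd hw (h.c1 _ _ _ (h.vis hf hx) (h.vis hf hy) (h.zz hf hx hy))
  · exact absurd hw (h.c3 _ _ _ (h.vis hf hy) (h.vis hf hx) (h.ww hf h1 hy hx))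

theorem IsModel.conf (hm : m.OK) (h : IsModel m M) (hf : M.F f) {i : ℕ} {x : A}
    (hx : Dp M.S f i x) : M.Q (m.lab i) f x ∧
      ∀ k < m.nK, ∀ u, Dp M.S f (m.cnt i k) u → M.H k f x u := by
  induction i generalizing x with
  | zero =>
    obtain rfl : x = f := hx
    refine ⟨h.q0 _ hf, fun k hk u hu => ?_⟩
    obtain rfl : u = x := hu
    exact h.h0 _ k hk hf
  | succ i ih =>
    obtain ⟨x', hx', hs⟩ := hx
    obtain ⟨h1, h2⟩ := ih hx'
    have hv := h.vis hf hx'
    have hok := hm.ins _ (m.lab_lt hm i)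
    have key : ∀ k, m.cnt i k ≤ i := fun k => m.cnt_le i k
    unfold Mach.lab Mach.cnt at *
    simp only [Mach.run, Mach.step]
    cases hi : m.ins (m.run i).1 with
    | inc k q =>
      rw [hi] at hok
      refine ⟨h.inc1 _ _ _ _ _ _ hi hv h1 hs, fun k' hk' u hu => ?_⟩
      simp only [update_apply] at hu
      split_ifs at hu with hkk
      · subst hkk
        obtain ⟨v, hv', hs'⟩ := hu
        exact h.inc2 _ _ _ _ _ _ _ _ hi hv (h.vis hf hv') h1 hs (h2 _ hk' _ hv') hs'
      · exact h.inc3 _ _ _ _ _ _ _ _ hi hkk hv (h.vis hf hu) h1 hs (h2 _ hk' _ hu)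
    | dec k q q' =>
      rw [hi] at hok
      simp only
      by_cases hc : (m.run i).2 k = 0
      · rw [if_pos hc]
        have h3 := h2 k hok.1 f (by rw [hc]; rfl)
        obtain ⟨h4, h5⟩ := h.dec1 _ _ _ _ _ _ _ hi hv h1 hs h3
        refine ⟨h4, fun k' hk' u hu => ?_⟩
        simp only at hu
        by_cases hkk : k' = k
        · subst hkk
          rw [hc] at hu
          obtain rfl : u = f := hu
          exact h5
        · exact h.dec3 _ _ _ _ _ _ _ _ _ hi hkk hv (h.vis hf hu) h1 hs (h2 _ hk' _ hu)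
      · rw [if_neg hc]
        obtain ⟨c, hcc⟩ : ∃ c, (m.run i).2 k = c + 1 := ⟨_, (Nat.succ_pred hc).symm⟩
        obtain ⟨u₀, hu₀⟩ := hx'.exists_le _ (key k)
        rw [hcc] at hu₀
        have hu₁ := hu₀
        obtain ⟨v₀, hv₀, hs₀⟩ := hu₀
        obtain ⟨h4, h5⟩ := h.dec2 _ _ _ _ _ _ _ _ _ hi hv (h.vis hf hu₁) (h.vis hf hv₀) h1 hs
          (h2 k hok.1 _ (by rw [hcc]; exact hu₁)) hs₀
        refine ⟨h4, fun k' hk' u hu => ?_⟩
        simp only [update_apply] at hu
        split_ifs at hu with hkk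
        · subst hkk
          rw [hcc, Nat.add_sub_cancel] at hu
          have hy : Dp M.S f (i + 1) x := ⟨x', hx', hs⟩
          exact h.hz _ _ _ _ _ (h.vis hf hy) (h.vis hf hv₀) (h.vis hf hu) h5 (h.zz hf hv₀ hu)
        · exact h.dec3 _ _ _ _ _ _ _ _ _ hi hkk hv (h.vis hf hu) h1 hs (h2 _ hk' _ hu)
    | jmp q =>
      refine ⟨h.jmp1 _ _ _ _ _ hi hv h1 hs, fun k' hk' u hu => ?_⟩
      exact h.jmp2 _ _ _ _ _ _ _ hi hv (h.vis hf hu) h1 hs (h2 _ hk' _ hu)
    | rst q =>
      refine ⟨h.rst1 _ _ _ _ _ hi hv h1 hs, fun k' hk' u hu => ?_⟩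
      simp only at hu
      have hy : Dp M.S f (i + 1) x := ⟨x', hx', hs⟩
      split_ifs at hu with hkk
      · subst hkk
        exact h.hz _ _ _ _ _ (h.vis hf hy) hv (h.vis hf hu) (h.rst2 _ _ _ _ _ hi hv h1 hs)
          (h.zz hf hx' hu)
      · obtain rfl : u = f := hu
        exact h.rst3 _ _ _ _ _ k' hk' hi hkk hv h1 hs

end Local

/-- The condition on the part of a structure which is visible from `f`. -/
structure GoodAt (m : Mach) {A : Type} (B : Mdl A) (f : A) : Prop where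
  uniq : ∀ i j x, Dp B.S f i x → Dp B.S f j x → i = j
  u : ∀ i x, Dp B.S f i x → ¬ B.U f x
  z : ∀ i j x y, Dp B.S f i x → Dp B.S f j y → B.Z f x y → i = j
  w : ∀ i j x y, Dp B.S f i x → Dp B.S f j y → B.W f x y → i < j
  q : ∀ i x q, Dp B.S f i x → B.Q q f x → q = m.lab i
  h : ∀ i j x u k, Dp B.S f i x → Dp B.S f j u → B.H k f x u → j = m.cnt i k
  x : ∃ ξ : ℕ → Bool, (∀ i x, Dp B.S f i x → B.X f x → ξ i = true) ∧
    ∀ n z, Dp B.S f n z → B.L z → m.flag n = true →
      (∀ a b c x y w, Dp B.S f a x → Dp B.S f b y → Dp B.S f c w → a < n → b < n → c < n →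
        B.P x y w → ξ a = true ∨ ξ b = true ∨ ξ c = true) ∧
      ∀ a b x y, Dp B.S f a x → Dp B.S f b y → a < n → b < n → B.N x y →
        ¬ (ξ a = true ∧ ξ b = true)

/-- Inclusion of the relations. -/
structure Sub {A : Type} (B M : Mdl A) : Prop where
  F : ∀ a, B.F a → M.F a
  L : ∀ a, B.L a → M.L a
  S : ∀ a b, B.S a b → M.S a b
  P : ∀ a b c, B.P a b c → M.P a b c
  N : ∀ a b, B.N a b → M.N a b
  U : ∀ a b, B.U a b → M.U a b
  X : ∀ a b, B.X a b → M.X a b
  Z : ∀ a b c, B.Z a b c → M.Z a b c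
  W : ∀ a b c, B.W a b c → M.W a b c
  Q : ∀ q a b, B.Q q a b → M.Q q a b
  H : ∀ k a b c, B.H k a b c → M.H k a b c

/-- The counters and labels used are those of the machine. -/
def Mdl.Nice {A : Type} (m : Mach) (M : Mdl A) : Prop :=
  (∀ q a b, M.Q q a b → q < m.nQ) ∧ ∀ k a b c, M.H k a b c → k < m.nK

theorem good_of_model {m : Mach} (hm : m.OK) {A : Type} {B M : Mdl A} (hM : IsModel m M)
    (hn : B.Nice m) (hs : Sub B M) {f : A} (hf : B.F f) : GoodAt m B f := by
  have hf' := hs.F _ hf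
  have hd : ∀ {i x}, Dp B.S f i x → Dp M.S f i x := fun h => h.mono hs.S
  classical
  refine ⟨fun i j x h1 h2 => hM.uniq hf' (hd h1) (hd h2),
    fun i x h1 h2 => (hM.vis hf' (hd h1)).2 (hs.U _ _ h2),
    fun i j x y h1 h2 h3 => hM.of_z hf' (hd h1) (hd h2) (hs.Z _ _ _ h3),
    fun i j x y h1 h2 h3 => hM.of_w hf' (hd h1) (hd h2) (hs.W _ _ _ h3),
    fun i x q h1 h2 => hM.qq _ _ _ _ (hM.vis hf' (hd h1)) (hs.Q _ _ _ h2) (hM.conf hm hf' (hd h1)).1,
    ?_, ?_⟩
  · intro i j x u k h1 h2 h3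
    have hk := hn.2 _ _ _ _ h3
    obtain ⟨v, hv⟩ := (hd h1).exists_le _ (m.cnt_le i k)
    have h4 := (hM.conf hm hf' (hd h1)).2 k hk v hv
    have h5 := hs.H _ _ _ _ h3
    have v1 := hM.vis hf' (hd h1)
    have v2 := hM.vis hf' (hd h2)
    have v3 := hM.vis hf' hv
    rcases Nat.lt_trichotomy j (m.cnt i k) with h | h | h
    · exact absurd (hM.ww hf' h (hd h2) hv) (hM.hh _ _ _ _ _ v1 v2 v3 h5 h4)
    · exact h
    · exact absurd (hM.ww hf' h hv (hd h2)) (hM.hh _ _ _ _ _ v1 v3 v2 h4 h5)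
  · refine ⟨fun a => decide (∃ x, Dp M.S f a x ∧ M.X f x), ?_, ?_⟩
    · intro i x h1 h2
      exact decide_eq_true ⟨x, hd h1, hs.X _ _ h2⟩
    · intro n z h1 h2 h3
      have hX : ∀ {a x}, Dp B.S f a x → (decide (∃ x, Dp M.S f a x ∧ M.X f x) = true ↔ M.X f x) := by
        intro a x hx
        rw [decide_eq_true_iff]
        constructor
        · rintro ⟨y, hy, hy'⟩
          exact hM.xz _ _ _ (hM.vis hf' hy) (hM.vis hf' (hd hx)) (hM.zz hf' hy (hd hx)) hy'
        · intro h
          exact ⟨x, hd hx, h⟩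
      have hz := hM.vis hf' (hd h1)
      have hq := (hM.conf hm hf' (hd h1)).1
      refine ⟨fun a b c x y w ha hb hc la lb lc hP => ?_, fun a b x y ha hb la lb hN => ?_⟩
      · rw [hX ha, hX hb, hX hc]
        exact hM.pp _ _ _ _ _ _ hz (hs.L _ h2) h3 hq (hM.vis hf' (hd ha)) (hM.vis hf' (hd hb))
          (hM.vis hf' (hd hc)) (hM.ww hf' la (hd ha) (hd h1)) (hM.ww hf' lb (hd hb) (hd h1))
          (hM.ww hf' lc (hd hc) (hd h1)) (hs.P _ _ _ hP)
      · rw [hX ha, hX hb]
        exact hM.nn _ _ _ _ _ hz (hs.L _ h2) h3 hq (hM.vis hf' (hd ha)) (hM.vis hf' (hd hb))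
          (hM.ww hf' la (hd ha) (hd h1)) (hM.ww hf' lb (hd hb) (hd h1)) (hs.N _ _ hN)

end Pool.Agent.H593R3.FBC
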